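import Mathlib

set_option autoImplicit false
set_option linter.style.haveILetI false

/-! Definitions for the unique factorisation of products of normally hereditary formations. -/

namespace Pool.Agent.Helper75.UF

/-- A class of groups. -/
abbrev GroupClass : Type 1 := (G : Type) → [Group G] → Prop

/-- A formation: a non-empty class of finite groups, closed under isomorphism and under quotients,
that contains `G / (M ∩ N)` whenever it contains `G / M` and `G / N`. -/
structure IsFormation (F : GroupClass) : Prop where
  nonempty : ∃ (G : Type) (_ : Group G), F G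
  finite : ∀ (G : Type) [Group G], F G → Finite G
  iso : ∀ (G H : Type) [Group G] [Group H], Nonempty (G ≃* H) → F G → F H
  quotient : ∀ (G : Type) [Group G] (N : Subgroup G) [N.Normal], F G → F (G ⧸ N)
  subdirect : ∀ (G : Type) [Group G] [Finite G] (M N : Subgroup G) [M.Normal] [N.Normal],
    F (G ⧸ M) → F (G ⧸ N) → F (G ⧸ (M ⊓ N))

/-- The `F`-residual of `G`: the intersection of all normal subgroups `N` of `G` with `G / N` in
`F`. If `F` is a formation and `G` is finite, it is the smallest normal subgroup `N` of `G` with
`G / N` in `F`. -/
def residual (F : GroupClass) (G : Type) [Group G] : Subgroup G :=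
  sInf {N : Subgroup G | ∃ _ : N.Normal, F (G ⧸ N)}

/-- The product `F ∘ H`: the class of the finite groups `G` whose `H`-residual belongs to `F`. -/
def Product (F H : GroupClass) : GroupClass := fun G _ => Finite G ∧ F (residual H G)

/-- The formation `(1)` of the trivial groups. -/
def Triv : GroupClass := fun G _ => Subsingleton G

/-- An indecomposable formation: a formation different from `(1)` that is not the product of two
formations different from `(1)`. -/
structure Indecomposable (F : GroupClass) : Prop where
  formation : IsFormation F
  ne_one : F ≠ Triv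
  not_prod : ∀ F₁ F₂ : GroupClass, IsFormation F₁ → IsFormation F₂ → F = Product F₁ F₂ →
    F₁ = Triv ∨ F₂ = Triv

/-- A normally hereditary class: normal subgroups of its groups belong to it. -/
def NormallyHereditary (F : GroupClass) : Prop :=
  ∀ (G : Type) [Group G] (N : Subgroup G) [N.Normal], F G → F N

/-- The product `F₁ ∘ F₂ ∘ ⋯ ∘ F_m` of a list of classes (it is `(1)` for the empty list). -/
def listProd (l : List GroupClass) : GroupClass := l.foldl Product Triv

/-- Inclusion of classes of groups. -/
def Sub (X Y : GroupClass) : Prop := ∀ (G : Type) [Group G], X G → Y G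

/-- The product of a list of classes, the last factor being the head of the list. -/
def rprod : List GroupClass → GroupClass
  | [] => Triv
  | F :: l => Product (rprod l) F

/-- `Abs A D B`: every finite group with a normal subgroup in `A` and the quotient isomorphic
to `D` belongs to `B`. -/
def Abs (A : GroupClass) (D : Type) [Group D] (B : GroupClass) : Prop :=
  ∀ (E : Type) [Group E] [Finite E] (π : E →* D), Function.Surjective π → A π.ker → B E

/-- The class of the finite groups `D` with `Abs A D A`. -/
def AbsClass (A : GroupClass) : GroupClass := fun D _ => Finite D ∧ Abs A D A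

/-- There is no nontrivial finite group `D` with `Abs A D A`. -/
def NoAbs (A : GroupClass) : Prop := ∀ (D : Type) [Group D] [Finite D], Abs A D A → Subsingleton D

/-- The groups with a subnormal series whose factors are isomorphic to `S`. -/
inductive ES (S : Type) [Group S] : (G : Type) → [Group G] → Prop
  | triv (G : Type) [Group G] : Subsingleton G → ES S G
  | ext (G : Type) [Group G] (N : Subgroup G) [N.Normal] : ES S N → Nonempty ((G ⧸ N) ≃* S) →
      ES S G

/-- Every finite simple group is a quotient of an `H`-residual. -/
def NonAbs (H : GroupClass) : Prop :=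
  ∀ (S : Type) [Group S] [Finite S], IsSimpleGroup S →
    ∃ (G : Type) (_ : Group G) (_ : Finite G) (χ : residual H G →* S), Function.Surjective χ

/-- The family of the images of the `F`-residual `G^F` under the epimorphisms of `G^H` onto `P`. -/
def Fam (F H : GroupClass) {P : Type} [Group P] (P₁ : Subgroup P) : Prop :=
  ∃ (G : Type) (_ : Group G) (_ : Finite G) (χ : residual H G →* P), Function.Surjective χ ∧
    P₁ = ((residual F G).subgroupOf (residual H G)).map χ

/-- The class of the finite groups `P` for which the trivial subgroup is in the family. -/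
def QC (F H : GroupClass) : GroupClass := fun P _ => Finite P ∧ Fam F H (⊥ : Subgroup P)

theorem class_ext {X Y : GroupClass} (h : ∀ (G : Type) [Group G], X G ↔ Y G) : X = Y := by
  funext G inst
  exact propext (@h G inst)

instance residual_normal (F : GroupClass) (G : Type) [Group G] : (residual F G).Normal where
  conj_mem := fun n hn g => by
    unfold residual at hn ⊢
    rw [Subgroup.mem_sInf] at hn ⊢
    rintro N ⟨hN, hF⟩
    exact hN.conj_mem n (hn N ⟨hN, hF⟩) g

theorem residual_le {F : GroupClass} {G : Type} [Group G] (N : Subgroup G) [hN : N.Normal]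
    (h : F (G ⧸ N)) : residual F G ≤ N := sInf_le ⟨hN, h⟩

namespace IsFormation

variable {F : GroupClass}

theorem surj (hF : IsFormation F) {G H : Type} [Group G] [Group H] (h : F G) (f : G →* H)
    (hf : Function.Surjective f) : F H := by
  have h1 : F (G ⧸ f.ker) := hF.quotient G f.ker h
  exact hF.iso _ _ ⟨QuotientGroup.quotientKerEquivOfSurjective f hf⟩ h1

theorem subdirect_hom (hF : IsFormation F) {G A B : Type} [Group G] [Finite G] [Group A] [Group B]
    (f : G →* A) (g : G →* B) (hf : Function.Surjective f) (hg : Function.Surjective g)
    (hA : F A) (hB : F B) (h : ∀ x, f x = 1 → g x = 1 → x = 1) : F G := by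
  have h1 : F (G ⧸ f.ker) :=
    hF.iso _ _ ⟨(QuotientGroup.quotientKerEquivOfSurjective f hf).symm⟩ hA
  have h2 : F (G ⧸ g.ker) :=
    hF.iso _ _ ⟨(QuotientGroup.quotientKerEquivOfSurjective g hg).symm⟩ hB
  have h3 := hF.subdirect G f.ker g.ker h1 h2
  have h4 : f.ker ⊓ g.ker = ⊥ := by
    rw [eq_bot_iff]
    intro x hx
    exact Subgroup.mem_bot.2 (h x (MonoidHom.mem_ker.1 hx.1) (MonoidHom.mem_ker.1 hx.2))
  let φ : (G ⧸ (f.ker ⊓ g.ker)) →* G :=
    QuotientGroup.lift (f.ker ⊓ g.ker) (MonoidHom.id G) (fun x hx => by
      rw [h4, Subgroup.mem_bot] at hx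
      simpa using hx)
  exact hF.surj h3 φ (fun x => ⟨(x : G ⧸ (f.ker ⊓ g.ker)), rfl⟩)

theorem trivial_mem (hF : IsFormation F) {G : Type} [Group G] (h : Subsingleton G) : F G := by
  obtain ⟨K, _, hK⟩ := hF.nonempty
  exact hF.surj hK (1 : K →* G) (fun x => ⟨1, Subsingleton.elim _ _⟩)

end IsFormation

end Pool.Agent.Helper75.UF
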