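import Pool.Agent.Helper75.UF.Defs

set_option autoImplicit false
set_option linter.style.haveILetI false

/-! Definitions for the unique factorisation of products of normally hereditary formations. -/

namespace Pool.Agent.Helper75.UF



theorem abs_ext {A : GroupClass} (hA : IsFormation A) {D K : Type} [Group D] [Finite D]
    [Group K] (f : D →* K) (hf : Function.Surjective f) (h1 : Abs A f.ker A) (h2 : Abs A K A) :
    Abs A D A := by
  intro E _ _ π hπ hker
  let ρ : (f.comp π).ker →* f.ker :=
    (π.comp (f.comp π).ker.subtype).codRestrict f.ker (fun x => x.2)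
  have hρ : ∀ x : (f.comp π).ker, ((ρ x : f.ker) : D) = π x := fun x => rfl
  have hρs : Function.Surjective ρ := by
    rintro ⟨d, hd⟩
    obtain ⟨e, he⟩ := hπ d
    refine ⟨⟨e, ?_⟩, ?_⟩
    · rw [MonoidHom.mem_ker, MonoidHom.comp_apply, he]
      exact hd
    · apply Subtype.ext
      exact he
  have hmem : ∀ e : π.ker, (e : E) ∈ (f.comp π).ker := by
    intro e
    rw [MonoidHom.mem_ker, MonoidHom.comp_apply, MonoidHom.mem_ker.mp e.2, map_one]
  let φ : π.ker ≃* ρ.ker :=
    { toFun := fun e => ⟨⟨e, hmem e⟩, by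
        rw [MonoidHom.mem_ker]
        apply Subtype.ext
        exact MonoidHom.mem_ker.mp e.2⟩
      invFun := fun x => ⟨x.1.1, by
        rw [MonoidHom.mem_ker]
        exact congrArg Subtype.val (MonoidHom.mem_ker.mp x.2)⟩
      left_inv := fun e => rfl
      right_inv := fun x => rfl
      map_mul' := fun a b => rfl }
  have h3 : A ρ.ker := hA.iso _ _ ⟨φ⟩ hker
  have h4 : A (f.comp π).ker := h1 _ ρ hρs h3
  exact h2 E (f.comp π) (hf.comp hπ) h4

end Pool.Agent.Helper75.UF
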