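import Pool.Agent.Helper75.UF.Defs

set_option autoImplicit false
set_option linter.style.haveILetI false

/-! Definitions for the unique factorisation of products of normally hereditary formations. -/

namespace Pool.Agent.Helper75.UF



/-- the right translation action on the functions on the quotient -/
def coindAct {P : Type} [Group P] (E : Type) [Group E] (U : Subgroup P) [U.Normal] :
    P →* MulAut ((P ⧸ U) → E) where
  toFun p :=
    { toFun := fun g x => g (x * (p : P ⧸ U))
      invFun := fun g x => g (x * (p : P ⧸ U)⁻¹)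
      left_inv := fun g => by funext x; simp
      right_inv := fun g => by funext x; simp
      map_mul' := fun _ _ => rfl }
  map_one' := by
    ext g x
    show g (x * ((1 : P) : P ⧸ U)) = g x
    rw [QuotientGroup.mk_one, mul_one]
  map_mul' := fun a b => by
    ext g x
    show g (x * ((a * b : P) : P ⧸ U)) = g (x * (a : P ⧸ U) * (b : P ⧸ U))
    rw [QuotientGroup.mk_mul, mul_assoc]

theorem coindAct_apply {P : Type} [Group P] (E : Type) [Group E] (U : Subgroup P) [U.Normal]
    (p : P) (g : (P ⧸ U) → E) (x : P ⧸ U) : coindAct E U p g x = g (x * (p : P ⧸ U)) := rfl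

/-- the cocycle -/
noncomputable def coindK {P : Type} [Group P] (U : Subgroup P) [U.Normal] (p : P) (x : P ⧸ U) :
    U := ⟨Quotient.out x * p * (Quotient.out (x * (p : P ⧸ U)))⁻¹, by
      rw [← QuotientGroup.eq_one_iff, QuotientGroup.mk_mul, QuotientGroup.mk_inv,
        QuotientGroup.mk_mul, QuotientGroup.out_eq', QuotientGroup.out_eq', mul_inv_cancel]⟩

theorem coindK_mul {P : Type} [Group P] (U : Subgroup P) [U.Normal] (p q : P) (x : P ⧸ U) :
    coindK U (p * q) x = coindK U p x * coindK U q (x * (p : P ⧸ U)) := by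
  refine Subtype.ext ?_
  show Quotient.out x * (p * q) * (Quotient.out (x * ((p * q : P) : P ⧸ U)))⁻¹ =
    Quotient.out x * p * (Quotient.out (x * (p : P ⧸ U)))⁻¹ *
      (Quotient.out (x * (p : P ⧸ U)) * q *
        (Quotient.out (x * (p : P ⧸ U) * (q : P ⧸ U)))⁻¹)
  rw [QuotientGroup.mk_mul, mul_assoc x]
  group

theorem coindK_one {P : Type} [Group P] (U : Subgroup P) [U.Normal] (x : P ⧸ U) :
    coindK U 1 x = 1 := by
  refine Subtype.ext ?_
  show Quotient.out x * 1 * (Quotient.out (x * ((1 : P) : P ⧸ U)))⁻¹ = 1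
  rw [QuotientGroup.mk_one, mul_one, mul_one, mul_inv_cancel]

/-- the coinduced group -/
noncomputable def coindG {P E Q : Type} [Group P] [Group E] [Group Q]
    (U : Subgroup P) [U.Normal] (φ : U →* Q) (π : E →* Q) :
    Subgroup (SemidirectProduct ((P ⧸ U) → E) P (coindAct E U)) where
  carrier := {s | ∀ x, π (s.left x) = φ (coindK U s.right x)}
  mul_mem' := by
    intro s s' hs hs' x
    have h1 : (s * s').left x = s.left x * s'.left (x * (s.right : P ⧸ U)) := by
      rw [SemidirectProduct.mul_left]; rfl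
    rw [h1, SemidirectProduct.mul_right, map_mul, hs, hs', coindK_mul, map_mul]
  one_mem' := by
    intro x
    rw [SemidirectProduct.one_left, SemidirectProduct.one_right, coindK_one, map_one]
    exact map_one π
  inv_mem' := by
    intro s hs x
    have h1 : (s⁻¹).left x = (s.left (x * ((s.right⁻¹ : P) : P ⧸ U)))⁻¹ := by
      rw [SemidirectProduct.inv_left]; rfl
    rw [h1, SemidirectProduct.inv_right, map_inv, hs]
    have h2 := coindK_mul U s.right⁻¹ s.right x
    rw [inv_mul_cancel, coindK_one] at h2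
    rw [eq_comm, ← mul_eq_one_iff_eq_inv, ← map_mul, ← h2, map_one]

theorem coindG_mem {P E Q : Type} [Group P] [Group E] [Group Q]
    (U : Subgroup P) [U.Normal] (φ : U →* Q) (π : E →* Q)
    (s : SemidirectProduct ((P ⧸ U) → E) P (coindAct E U)) :
    s ∈ coindG U φ π ↔ ∀ x, π (s.left x) = φ (coindK U s.right x) := Iff.rfl

/-- Coinduction of the extension `π : E → Q` along `φ : U → Q` from the normal subgroup `U` of `P`
to `P`. -/
theorem coind {P E Q : Type} [Group P] [Finite P] [Group E] [Finite E] [Group Q]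
    (U : Subgroup P) [hU : U.Normal] (φ : U →* Q) (π : E →* Q) (hπ : Function.Surjective π) :
    ∃ (P' : Type) (_ : Group P') (_ : Finite P') (f : P' →* P) (ψ : (U.comap f) →* E),
      Function.Surjective f ∧
      (∀ x : U.comap f, π (ψ x) = φ ⟨f x, x.2⟩) ∧
      (∀ y : E, π y = 1 → ∃ x : U.comap f, f x = 1 ∧ ψ x = y) ∧
      Nonempty (f.ker ≃* ((P ⧸ U) → π.ker)) ∧
      (∀ K : Subgroup P', K.Normal → ¬ K.map f ≤ U →
        ∀ y : E, π y = 1 → ∃ x : U.comap f, (x : P') ∈ K ∧ f x = 1 ∧ ψ x = y) := by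
  classical
  have hfin : Finite (SemidirectProduct ((P ⧸ U) → E) P (coindAct E U)) :=
    Finite.of_equiv _ SemidirectProduct.equivProd.symm
  obtain ⟨f, hf⟩ : ∃ f : coindG U φ π →* P, ∀ s, f s = s.1.right :=
    ⟨SemidirectProduct.rightHom.comp (coindG U φ π).subtype, fun s => rfl⟩
  have ht1 : Quotient.out (1 : P ⧸ U) ∈ U := by
    rw [← QuotientGroup.eq_one_iff, QuotientGroup.out_eq']
  obtain ⟨e0, he0⟩ := hπ (φ ⟨Quotient.out (1 : P ⧸ U), ht1⟩)
  have hone : ∀ s : U.comap f, ((s.1.1.right : P) : P ⧸ U) = 1 := by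
    intro s
    rw [QuotientGroup.eq_one_iff, ← hf]
    exact s.2
  obtain ⟨ψ, hψ⟩ : ∃ ψ : (U.comap f) →* E, ∀ s, ψ s = e0⁻¹ * s.1.1.left 1 * e0 := by
    refine ⟨{ toFun := fun s => e0⁻¹ * s.1.1.left 1 * e0, map_one' := ?_, map_mul' := ?_ },
      fun s => rfl⟩
    · show e0⁻¹ * 1 * e0 = 1
      rw [mul_one, inv_mul_cancel]
    · intro s s'
      have h1 : (s * s').1.1.left 1 = s.1.1.left 1 * s'.1.1.left (1 * (s.1.1.right : P ⧸ U)) := rfl
      rw [h1, hone s, mul_one]
      group
  have hφ1 : ∀ y : E, π y = 1 → π (e0 * y * e0⁻¹) = 1 := by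
    intro y hy
    rw [map_mul, map_mul, hy, mul_one, ← map_mul, mul_inv_cancel, map_one]
  refine ⟨coindG U φ π, inferInstance, inferInstance, f, ψ, ?_, ?_, ?_, ?_, ?_⟩
  · intro p
    choose g hg using fun x : P ⧸ U => hπ (φ (coindK U p x))
    exact ⟨⟨⟨g, p⟩, hg⟩, hf _⟩
  · intro s
    have h1 : π (s.1.1.left 1) = φ (coindK U s.1.1.right 1) := s.1.2 1
    rw [hψ, map_mul, map_mul, map_inv, h1, he0, ← map_inv, ← map_mul, ← map_mul]
    congr 1
    refine Subtype.ext ?_
    show (Quotient.out (1 : P ⧸ U))⁻¹ * (Quotient.out (1 : P ⧸ U) * s.1.1.right *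
      (Quotient.out ((1 : P ⧸ U) * (s.1.1.right : P ⧸ U)))⁻¹) * Quotient.out (1 : P ⧸ U) = f s.1
    rw [hone s, mul_one, hf]
    group
  · intro y hy
    have hm : (⟨fun _ => e0 * y * e0⁻¹, 1⟩ :
        SemidirectProduct ((P ⧸ U) → E) P (coindAct E U)) ∈ coindG U φ π := by
      intro x
      show π (e0 * y * e0⁻¹) = φ (coindK U 1 x)
      rw [coindK_one, map_one, hφ1 y hy]
    have hfm : f ⟨_, hm⟩ = 1 := hf _
    refine ⟨⟨⟨_, hm⟩, ?_⟩, hfm, ?_⟩
    · rw [Subgroup.mem_comap, hfm]
      exact U.one_mem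
    · rw [hψ]
      show e0⁻¹ * (e0 * y * e0⁻¹) * e0 = y
      group
  · have hker : ∀ s : f.ker, s.1.1.right = 1 := fun s => by
      rw [← hf]; exact s.2
    refine ⟨MulEquiv.ofBijective
      ({ toFun := fun s x => ⟨s.1.1.left x, by
          rw [MonoidHom.mem_ker, s.1.2 x, hker s, coindK_one, map_one]⟩
         map_one' := rfl
         map_mul' := ?_ } : f.ker →* ((P ⧸ U) → π.ker)) ⟨?_, ?_⟩⟩
    · intro s s'
      funext x
      refine Subtype.ext ?_
      show s.1.1.left x * s'.1.1.left (x * (s.1.1.right : P ⧸ U)) = s.1.1.left x * s'.1.1.left x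
      rw [hker s, QuotientGroup.mk_one, mul_one]
    · intro s s' hss
      refine Subtype.ext (Subtype.ext (SemidirectProduct.ext ?_ ?_))
      · funext x
        exact congrArg Subtype.val (congrFun hss x)
      · rw [hker s, hker s']
    · intro g
      have hm : (⟨fun x => (g x : E), 1⟩ :
        SemidirectProduct ((P ⧸ U) → E) P (coindAct E U)) ∈ coindG U φ π := by
        intro x
        show π (g x : E) = φ (coindK U 1 x)
        rw [coindK_one, map_one]
        exact (g x).2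
      refine ⟨⟨⟨_, hm⟩, ?_⟩, rfl⟩
      rw [MonoidHom.mem_ker, hf]
  · intro K hK hKU y hy
    obtain ⟨p, hp, hpU⟩ := SetLike.not_le_iff_exists.1 hKU
    obtain ⟨r, hrK, rfl⟩ := hp
    have hr1 : ((r.1.right : P) : P ⧸ U) ≠ 1 := by
      rw [Ne, QuotientGroup.eq_one_iff, ← hf]
      exact hpU
    have hm : (⟨Pi.mulSingle 1 (e0 * y * e0⁻¹), 1⟩ :
        SemidirectProduct ((P ⧸ U) → E) P (coindAct E U)) ∈ coindG U φ π := by
      intro x
      show π ((Pi.mulSingle (1 : P ⧸ U) (e0 * y * e0⁻¹) : (P ⧸ U) → E) x) = φ (coindK U 1 x)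
      rw [coindK_one, map_one]
      by_cases hx : x = 1
      · rw [hx, Pi.mulSingle_eq_same, hφ1 y hy]
      · rw [Pi.mulSingle_eq_of_ne hx, map_one]
    obtain ⟨w, hw⟩ : ∃ w : coindG U φ π, w = ⟨_, hm⟩ := ⟨_, rfl⟩
    have hfw : f w = 1 := by rw [hf, hw]
    have hkK : w * r * w⁻¹ * r⁻¹ ∈ K := K.mul_mem (hK.conj_mem r hrK w) (K.inv_mem hrK)
    have hfk : f (w * r * w⁻¹ * r⁻¹) = 1 := by
      rw [map_mul, map_mul, map_mul, map_inv, map_inv, hfw]
      group
    refine ⟨⟨w * r * w⁻¹ * r⁻¹, ?_⟩, hkK, hfk, ?_⟩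
    · rw [Subgroup.mem_comap, hfk]
      exact U.one_mem
    · rw [hψ]
      have h1 : (w * r * w⁻¹ * r⁻¹).1.left 1 = e0 * y * e0⁻¹ := by
        have e1 : (w * r * w⁻¹ * r⁻¹) = (w * r) * (r * w)⁻¹ := by group
        have e2 : (w * r).1 = ((w * r * w⁻¹ * r⁻¹) * (r * w)).1 := by
          congr 1; group
        have e3 := congrArg
          (fun s : SemidirectProduct ((P ⧸ U) → E) P (coindAct E U) => s.left 1) e2
        have e4 : (w * r).1.left 1 = w.1.left 1 * r.1.left (1 * (w.1.right : P ⧸ U)) := rfl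
        have e5 : ((w * r * w⁻¹ * r⁻¹) * (r * w)).1.left 1 = (w * r * w⁻¹ * r⁻¹).1.left 1 *
          (r.1.left (1 * ((w * r * w⁻¹ * r⁻¹).1.right : P ⧸ U)) *
            w.1.left (1 * ((w * r * w⁻¹ * r⁻¹).1.right : P ⧸ U) * (r.1.right : P ⧸ U))) := rfl
        have e6 : (w * r * w⁻¹ * r⁻¹).1.right = 1 := by rw [← hf, hfk]
        have e7 : w.1.right = 1 := by rw [← hf, hfw]
        have e8 : w.1.left (r.1.right : P ⧸ U) = 1 := by
          rw [hw]
          exact Pi.mulSingle_eq_of_ne hr1 _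
        have e9 : w.1.left 1 = e0 * y * e0⁻¹ := by
          rw [hw]
          exact Pi.mulSingle_eq_same _ _
        have e10 : (w * r).1.left 1 = ((w * r * w⁻¹ * r⁻¹) * (r * w)).1.left 1 := e3
        rw [e4, e5, e6, e7, QuotientGroup.mk_one, mul_one, one_mul, e8, mul_one, e9] at e10
        exact (mul_right_cancel e10).symm
      show e0⁻¹ * (w * r * w⁻¹ * r⁻¹).1.left 1 * e0 = y
      rw [h1]
      group

end Pool.Agent.Helper75.UF
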