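import Pool.Agent.Helper75.UF.Defs

set_option autoImplicit false
set_option linter.style.haveILetI false

/-! Definitions for the unique factorisation of products of normally hereditary formations. -/

namespace Pool.Agent.Helper75.UF



theorem quot_residual {F : GroupClass} (hF : IsFormation F) (G : Type) [Group G] [Finite G] :
    F (G ⧸ residual F G) := by
  have hfin : {N : Subgroup G | ∃ _ : N.Normal, F (G ⧸ N)}.Finite := Set.toFinite _
  have htop : (⊤ : Subgroup G) ∈ {N : Subgroup G | ∃ _ : N.Normal, F (G ⧸ N)} :=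
    ⟨inferInstance, hF.trivial_mem QuotientGroup.subsingleton_quotient_top⟩
  obtain ⟨R, hR⟩ := hfin.exists_minimal ⟨_, htop⟩
  obtain ⟨hRn, hRF⟩ := hR.prop
  have hle : R ≤ residual F G := by
    unfold residual
    apply le_sInf
    rintro N ⟨hN, hNF⟩
    have hmem : R ⊓ N ∈ {N : Subgroup G | ∃ _ : N.Normal, F (G ⧸ N)} :=
      ⟨inferInstance, hF.subdirect G R N hRF hNF⟩
    exact (hR.le_of_le hmem inf_le_left).trans inf_le_right
  have heq : R = residual F G := le_antisymm hle (residual_le R hRF)
  exact hF.iso _ _ ⟨QuotientGroup.quotientMulEquivOfEq heq⟩ hRF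

end Pool.Agent.Helper75.UF
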