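import Pool.Agent.Helper75.UF.Defs
import Pool.Agent.Helper75.UF.P_quot_residual

set_option autoImplicit false
set_option linter.style.haveILetI false

/-! Definitions for the unique factorisation of products of normally hereditary formations. -/

namespace Pool.Agent.Helper75.UF



theorem residual_le_ker {F : GroupClass} (hF : IsFormation F) {G K : Type} [Group G] [Finite G]
    [Group K] (f : G →* K) (hf : Function.Surjective f) : residual F G ≤ f.ker ↔ F K := by
  constructor
  · intro h
    have h1 := quot_residual hF G
    exact hF.surj h1 (QuotientGroup.lift (residual F G) f (fun x hx => MonoidHom.mem_ker.1 (h hx)))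
      (fun y => by
        obtain ⟨x, hx⟩ := hf y
        exact ⟨(x : G ⧸ residual F G), by simpa using hx⟩)
  · intro h
    exact residual_le f.ker (hF.iso _ _ ⟨(QuotientGroup.quotientKerEquivOfSurjective f hf).symm⟩ h)

end Pool.Agent.Helper75.UF
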