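import Pool.Agent.Helper75.UF.Defs
import Pool.Agent.Helper75.UF.P_residual_le_ker

set_option autoImplicit false
set_option linter.style.haveILetI false

/-! Definitions for the unique factorisation of products of normally hereditary formations. -/

namespace Pool.Agent.Helper75.UF



theorem residual_eq_bot {F : GroupClass} (hF : IsFormation F) {G : Type} [Group G] [Finite G] :
    residual F G = ⊥ ↔ F G := by
  have h := residual_le_ker hF (MonoidHom.id G) Function.surjective_id
  have hk : (MonoidHom.id G).ker = ⊥ := by
    ext x; simp [MonoidHom.mem_ker]
  rw [hk, le_bot_iff] at h
  exact h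

end Pool.Agent.Helper75.UF
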