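import Pool.Agent.Helper75.UF.Defs
import Pool.Agent.Helper75.UF.P_residual_le_ker
import Pool.Agent.Helper75.UF.P_residual_eq_bot

set_option autoImplicit false
set_option linter.style.haveILetI false

/-! Definitions for the unique factorisation of products of normally hereditary formations. -/

namespace Pool.Agent.Helper75.UF



theorem pow_mem {F : GroupClass} (hF : IsFormation F) {ι : Type} [Finite ι] {Y : Type} [Group Y]
    (hY : F Y) : F (ι → Y) := by
  haveI : Finite Y := hF.finite Y hY
  rw [← residual_eq_bot hF, eq_bot_iff]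
  intro x hx
  rw [Subgroup.mem_bot]
  funext i
  have h1 : residual F (ι → Y) ≤ (Pi.evalMonoidHom (fun _ : ι => Y) i).ker :=
    (residual_le_ker hF (Pi.evalMonoidHom (fun _ : ι => Y) i)
      (fun y => ⟨fun _ => y, rfl⟩)).mpr hY
  exact MonoidHom.mem_ker.mp (h1 hx)

end Pool.Agent.Helper75.UF
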