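import Pool.Agent.Helper75.UF.Defs

set_option autoImplicit false
set_option linter.style.haveILetI false

/-! Definitions for the unique factorisation of products of normally hereditary formations. -/

namespace Pool.Agent.Helper75.UF



/-- Members of a normally hereditary formation: `N ∈ F`, `K ≤ N`, `K` normal in `G`. -/
theorem sub_mem {F : GroupClass} (hF : IsFormation F) (hS : NormallyHereditary F) {G : Type}
    [Group G] (N K : Subgroup G) [hK : K.Normal] (hKN : K ≤ N) (hN : F N) : F K := by
  haveI : (K.subgroupOf N).Normal := hK.subgroupOf N
  exact hF.iso _ _ ⟨Subgroup.subgroupOfEquivOfLe hKN⟩ (hS N (K.subgroupOf N) hN)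

end Pool.Agent.Helper75.UF
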