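import Pool.Agent.Helper75.UF.Defs
import Pool.Agent.Helper75.UF.P_sub_mem
import Pool.Agent.Helper75.UF.P_pow_mem
import Pool.Agent.Helper75.UF.P_coind

set_option autoImplicit false
set_option linter.style.haveILetI false

/-! Definitions for the unique factorisation of products of normally hereditary formations. -/

namespace Pool.Agent.Helper75.UF



theorem coind_abs {P E Q : Type} [Group P] [Finite P] [Group E] [Finite E] [Group Q]
    (U : Subgroup P) [hU : U.Normal] (φ : U →* Q) (hφ : Function.Surjective φ) (π : E →* Q)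
    (hπ : Function.Surjective π) :
    ∃ (P' : Type) (_ : Group P') (_ : Finite P') (f : P' →* P), Function.Surjective f ∧
      (∀ A : GroupClass, IsFormation A → A π.ker → A f.ker) ∧
      (∀ B : GroupClass, IsFormation B → B (U.comap f) → B E) ∧
      (∀ B : GroupClass, IsFormation B → NormallyHereditary B → ∀ K : Subgroup P', K.Normal →
        U ≤ K.map f → ¬ K.map f ≤ U → B K → B E) := by
  obtain ⟨P', iG, iF, f, ψ, hf, hψ, h3, ⟨e4⟩, h5⟩ := coind U φ π hπ
  refine ⟨P', iG, iF, f, hf, ?_, ?_, ?_⟩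
  · intro A hA hAk
    have h1 : A ((P ⧸ U) → π.ker) := pow_mem hA hAk
    exact hA.iso _ _ ⟨e4.symm⟩ h1
  · intro B hB hBU
    refine hB.surj hBU ψ ?_
    intro e
    obtain ⟨u, hu⟩ := hφ (π e)
    obtain ⟨x, hx⟩ := hf (u : P)
    have hxU : x ∈ U.comap f := by
      rw [Subgroup.mem_comap, hx]; exact u.2
    have h6 : π (ψ ⟨x, hxU⟩) = π e := by
      rw [hψ, ← hu]
      congr 1
      exact Subtype.ext hx
    have h7 : π ((ψ ⟨x, hxU⟩)⁻¹ * e) = 1 := by
      rw [map_mul, map_inv, h6, inv_mul_cancel]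
    obtain ⟨x', -, hx'⟩ := h3 _ h7
    refine ⟨⟨x, hxU⟩ * x', ?_⟩
    rw [map_mul, hx', mul_inv_cancel_left]
  · intro B hB hS K hK hUK hnot hBK
    haveI := hK
    have hBL : B ↥(K ⊓ U.comap f) := sub_mem hB hS K (K ⊓ U.comap f) inf_le_left hBK
    refine hB.surj hBL (ψ.comp (Subgroup.inclusion (inf_le_right : K ⊓ U.comap f ≤ U.comap f))) ?_
    intro e
    obtain ⟨u, hu⟩ := hφ (π e)
    obtain ⟨k, hkK, hk⟩ := hUK u.2
    have hkU : k ∈ U.comap f := by
      rw [Subgroup.mem_comap, hk]; exact u.2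
    have h6 : π (ψ ⟨k, hkU⟩) = π e := by
      rw [hψ, ← hu]
      congr 1
      exact Subtype.ext hk
    have h7 : π ((ψ ⟨k, hkU⟩)⁻¹ * e) = 1 := by
      rw [map_mul, map_inv, h6, inv_mul_cancel]
    obtain ⟨x, hxK, -, hx⟩ := h5 K hK hnot _ h7
    refine ⟨⟨k * x, K.mul_mem hkK hxK, (U.comap f).mul_mem hkU x.2⟩, ?_⟩
    have h8 : (Subgroup.inclusion (inf_le_right : K ⊓ U.comap f ≤ U.comap f))
        ⟨k * x, K.mul_mem hkK hxK, (U.comap f).mul_mem hkU x.2⟩ = ⟨k, hkU⟩ * x := rfl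
    rw [MonoidHom.comp_apply, h8, map_mul, hx, mul_inv_cancel_left]

end Pool.Agent.Helper75.UF
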