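import Pool.Agent.Helper75.UF.Defs
import Pool.Agent.Helper75.UF.P_coind_abs

set_option autoImplicit false
set_option linter.style.haveILetI false

/-! Definitions for the unique factorisation of products of normally hereditary formations. -/

namespace Pool.Agent.Helper75.UF



theorem abs_normal {A B : GroupClass} (hA : IsFormation A) (hB : IsFormation B)
    (hB' : NormallyHereditary B) {D : Type} [Group D] [Finite D] (h : Abs A D B)
    (N : Subgroup D) [hN : N.Normal] : Abs A N B := by
  intro E _ _ π hπ hAk
  obtain ⟨P', _, _, f, hf, h1, h2, -⟩ :=
    coind_abs N (MonoidHom.id N) Function.surjective_id π hπ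
  have hP : B P' := h P' f hf (h1 A hA hAk)
  exact h2 B hB (hB' P' (N.comap f) hP)

end Pool.Agent.Helper75.UF
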