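import Pool.Agent.Helper75.UF.Defs

set_option autoImplicit false
set_option linter.style.haveILetI false

/-! Definitions for the unique factorisation of products of normally hereditary formations. -/

namespace Pool.Agent.Helper75.UF



theorem abs_quot {A B : GroupClass} (hA : IsFormation A) (hB : IsFormation B) {D D' : Type}
    [Group D] [Finite D] [Group D'] (h : Abs A D B) (f : D →* D') (hf : Function.Surjective f) :
    Abs A D' B := by
  intro E _ _ π hπ hk
  let E1 : Subgroup (E × D) :=
    MonoidHom.eqLocus (π.comp (MonoidHom.fst E D)) (f.comp (MonoidHom.snd E D))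
  have hmem : ∀ p : E × D, p ∈ E1 ↔ π p.1 = f p.2 := fun p => Iff.rfl
  let s : E1 →* D := (MonoidHom.snd E D).comp E1.subtype
  let t : E1 →* E := (MonoidHom.fst E D).comp E1.subtype
  have hs : Function.Surjective s := by
    intro d
    obtain ⟨e, he⟩ := hπ (f d)
    exact ⟨⟨(e, d), (hmem _).2 he⟩, rfl⟩
  have ht : Function.Surjective t := by
    intro e
    obtain ⟨d, hd⟩ := hf (π e)
    exact ⟨⟨(e, d), (hmem _).2 hd.symm⟩, rfl⟩
  let φ : π.ker →* s.ker := MonoidHom.mk' (fun e => ⟨⟨(e.1, 1), (hmem _).2 (by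
      change π e.1 = f 1
      rw [map_one]; exact e.2)⟩, by
      rw [MonoidHom.mem_ker]; rfl⟩) (by
    intro a b
    apply Subtype.ext
    apply Subtype.ext
    exact Prod.ext rfl (mul_one (1 : D)).symm)
  have hφ : Function.Surjective φ := by
    rintro ⟨⟨⟨e, d⟩, hp⟩, hx⟩
    have hd : d = 1 := hx
    subst hd
    have he : π e = 1 := by
      have := (hmem _).1 hp
      simpa using this
    exact ⟨⟨e, he⟩, rfl⟩
  have h1 : A s.ker := hA.surj hk φ hφ
  have h2 : B E1 := h E1 s hs h1
  exact hB.surj h2 t ht

end Pool.Agent.Helper75.UF
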