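import Pool.Agent.Helper75.UF.Defs
import Pool.Agent.Helper75.UF.P_abs_quot
import Pool.Agent.Helper75.UF.P_abs_normal
import Pool.Agent.Helper75.UF.P_abs_ext

set_option autoImplicit false
set_option linter.style.haveILetI false

/-! Definitions for the unique factorisation of products of normally hereditary formations. -/

namespace Pool.Agent.Helper75.UF



theorem absclass_formation {A : GroupClass} (hA : IsFormation A) (hA' : NormallyHereditary A) :
    IsFormation (AbsClass A) ∧ NormallyHereditary (AbsClass A) := by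
  have hher : NormallyHereditary (AbsClass A) := by
    intro G _ N hN h
    haveI : Finite G := h.1
    exact ⟨inferInstance, abs_normal hA hA hA' h.2 N⟩
  refine ⟨⟨?_, ?_, ?_, ?_, ?_⟩, hher⟩
  · refine ⟨PUnit, inferInstance, inferInstance, ?_⟩
    intro E _ _ π hπ h
    have h1 : π.ker = ⊤ := by
      rw [eq_top_iff]
      intro x _
      exact MonoidHom.mem_ker.2 (Subsingleton.elim _ _)
    exact hA.iso _ _ ⟨(MulEquiv.subgroupCongr h1).trans Subgroup.topEquiv⟩ h
  · intro G _ h
    exact h.1
  · intro G H _ _ ⟨e⟩ h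
    haveI : Finite G := h.1
    exact ⟨Finite.of_equiv G e.toEquiv, abs_quot hA hA h.2 e.toMonoidHom e.surjective⟩
  · intro G _ N _ h
    haveI : Finite G := h.1
    exact ⟨inferInstance, abs_quot hA hA h.2 (QuotientGroup.mk' N) (QuotientGroup.mk'_surjective N)⟩
  · intro G _ _ M N _ _ hM hN
    refine ⟨inferInstance, ?_⟩
    have ha1 : M ⊓ N ≤ M.comap (MonoidHom.id G) := fun x hx => hx.1
    have hb1 : M ⊓ N ≤ N.comap (MonoidHom.id G) := fun x hx => hx.2
    obtain ⟨a, ha⟩ : ∃ a, a = QuotientGroup.map (M ⊓ N) M (MonoidHom.id G) ha1 := ⟨_, rfl⟩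
    obtain ⟨b, hb⟩ : ∃ b, b = QuotientGroup.map (M ⊓ N) N (MonoidHom.id G) hb1 := ⟨_, rfl⟩
    have hamk : ∀ g : G, a (g : G ⧸ (M ⊓ N)) = (g : G ⧸ M) := by
      intro g
      rw [ha]
      rfl
    have hbmk : ∀ g : G, b (g : G ⧸ (M ⊓ N)) = (g : G ⧸ N) := by
      intro g
      rw [hb]
      rfl
    have has : Function.Surjective a := by
      intro y
      obtain ⟨g, rfl⟩ := QuotientGroup.mk_surjective y
      exact ⟨_, hamk g⟩
    have hbs : Function.Surjective b := by
      intro y
      obtain ⟨g, rfl⟩ := QuotientGroup.mk_surjective y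
      exact ⟨_, hbmk g⟩
    have hab : ∀ x, a x = 1 → b x = 1 → x = 1 := by
      intro x h1 h2
      obtain ⟨g, rfl⟩ := QuotientGroup.mk_surjective x
      rw [hamk, QuotientGroup.eq_one_iff] at h1
      rw [hbmk, QuotientGroup.eq_one_iff] at h2
      rw [QuotientGroup.eq_one_iff]
      exact ⟨h1, h2⟩
    have hinj : Function.Injective (b.comp a.ker.subtype) := by
      rw [injective_iff_map_eq_one]
      intro x hx
      apply Subtype.ext
      exact hab x.1 (MonoidHom.mem_ker.1 x.2) hx
    have hrange : (b.comp a.ker.subtype).range = a.ker.map b := by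
      rw [MonoidHom.range_comp, Subgroup.range_subtype]
    haveI hnorm : (b.comp a.ker.subtype).range.Normal := by
      rw [hrange]
      exact Subgroup.Normal.map inferInstance b hbs
    haveI : Finite (G ⧸ N) := hN.1
    have h3 : Abs A (b.comp a.ker.subtype).range A := abs_normal hA hA hA' hN.2 _
    have h4 : Abs A a.ker A :=
      abs_quot hA hA h3 (MonoidHom.ofInjective hinj).symm.toMonoidHom
        (MonoidHom.ofInjective hinj).symm.surjective
    exact abs_ext hA a has h4 hM.2

end Pool.Agent.Helper75.UF
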