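import Pool.Agent.Helper75.UF.Defs
import Pool.Agent.Helper75.UF.P_quot_residual
import Pool.Agent.Helper75.UF.P_residual_le_ker

set_option autoImplicit false
set_option linter.style.haveILetI false

/-! Definitions for the unique factorisation of products of normally hereditary formations. -/

namespace Pool.Agent.Helper75.UF



theorem map_residual {F : GroupClass} (hF : IsFormation F) {G K : Type} [Group G] [Finite G]
    [Group K] (f : G →* K) (hf : Function.Surjective f) :
    (residual F G).map f = residual F K := by
  have : Finite K := Finite.of_surjective f hf
  have hN : ((residual F G).map f).Normal := (residual_normal F G).map f hf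
  apply le_antisymm
  · have hs : Function.Surjective ((QuotientGroup.mk' (residual F K)).comp f) :=
      (QuotientGroup.mk'_surjective _).comp hf
    have h1 := (residual_le_ker hF ((QuotientGroup.mk' (residual F K)).comp f) hs).2
      (quot_residual hF K)
    rw [Subgroup.map_le_iff_le_comap]
    intro x hx
    have h2 := h1 hx
    rw [MonoidHom.mem_ker, MonoidHom.comp_apply, QuotientGroup.mk'_apply,
      QuotientGroup.eq_one_iff] at h2
    exact h2
  · apply residual_le
    refine hF.surj (quot_residual hF G)
      (QuotientGroup.map (residual F G) ((residual F G).map f) f (Subgroup.le_comap_map _ _)) ?_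
    intro y
    obtain ⟨k, rfl⟩ := QuotientGroup.mk_surjective y
    obtain ⟨g, rfl⟩ := hf k
    exact ⟨(g : G ⧸ residual F G), rfl⟩

end Pool.Agent.Helper75.UF
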