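import Pool.Agent.Helper75.UF.Defs
import Pool.Agent.Helper75.UF.P_quot_residual
import Pool.Agent.Helper75.UF.P_residual_le_ker

set_option autoImplicit false
set_option linter.style.haveILetI false

/-! Definitions for the unique factorisation of products of normally hereditary formations. -/

namespace Pool.Agent.Helper75.UF



theorem sn_mono {F : GroupClass} (hF : IsFormation F) (hS : NormallyHereditary F) {G : Type}
    [Group G] [Finite G] (N : Subgroup G) [hN : N.Normal] :
    (residual F N).map N.subtype ≤ residual F G := by
  have h1 := quot_residual hF G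
  haveI : (N.map (QuotientGroup.mk' (residual F G))).Normal :=
    Subgroup.Normal.map hN _ (QuotientGroup.mk'_surjective _)
  have h2 : F (N.map (QuotientGroup.mk' (residual F G))) :=
    hS _ (N.map (QuotientGroup.mk' (residual F G))) h1
  have h3 := (residual_le_ker hF ((QuotientGroup.mk' (residual F G)).subgroupMap N)
    ((QuotientGroup.mk' (residual F G)).subgroupMap_surjective N)).mpr h2
  rintro _ ⟨x, hx, rfl⟩
  have h4 := h3 hx
  rw [MonoidHom.mem_ker] at h4
  have h5 := congrArg Subtype.val h4
  have h6 : (QuotientGroup.mk' (residual F G)) (x : G) = 1 := h5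
  rw [QuotientGroup.mk'_apply, QuotientGroup.eq_one_iff] at h6
  exact h6

end Pool.Agent.Helper75.UF
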