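import Pool.Agent.Helper75.UF.Defs
import Pool.Agent.Helper75.UF.P_map_residual
import Pool.Agent.Helper75.UF.P_sn_mono

set_option autoImplicit false
set_option linter.style.haveILetI false

/-! Definitions for the unique factorisation of products of normally hereditary formations. -/

namespace Pool.Agent.Helper75.UF



theorem residual_times {F : GroupClass} (hF : IsFormation F) (hS : NormallyHereditary F)
    {G K : Type} [Group G] [Finite G] [Group K] [Finite K] :
    residual F (G × K) = (residual F G).prod (residual F K) := by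
  apply le_antisymm
  · intro p hp
    rw [Subgroup.mem_prod]
    constructor
    · rw [← map_residual hF (MonoidHom.fst G K) (fun x => ⟨(x, 1), rfl⟩)]
      exact ⟨p, hp, rfl⟩
    · rw [← map_residual hF (MonoidHom.snd G K) (fun x => ⟨(1, x), rfl⟩)]
      exact ⟨p, hp, rfl⟩
  · rintro ⟨x, y⟩ hxy
    rw [Subgroup.mem_prod] at hxy
    obtain ⟨hx, hy⟩ := hxy
    have h1 : ((x, 1) : G × K) ∈ residual F (G × K) := by
      have hm := map_residual hF ((MonoidHom.fst G K).comp (MonoidHom.snd G K).ker.subtype)
        (fun x => ⟨⟨(x, 1), MonoidHom.mem_ker.2 rfl⟩, rfl⟩)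
      rw [← hm] at hx
      obtain ⟨n, hn, hnx⟩ := hx
      have h2 := sn_mono hF hS (MonoidHom.snd G K).ker ⟨n, hn, rfl⟩
      have h3 : ((x, 1) : G × K) = (MonoidHom.snd G K).ker.subtype n := by
        apply Prod.ext
        · exact hnx.symm
        · exact (MonoidHom.mem_ker.1 n.2).symm
      rw [h3]
      exact h2
    have h1' : ((1, y) : G × K) ∈ residual F (G × K) := by
      have hm := map_residual hF ((MonoidHom.snd G K).comp (MonoidHom.fst G K).ker.subtype)
        (fun x => ⟨⟨(1, x), MonoidHom.mem_ker.2 rfl⟩, rfl⟩)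
      rw [← hm] at hy
      obtain ⟨n, hn, hny⟩ := hy
      have h2 := sn_mono hF hS (MonoidHom.fst G K).ker ⟨n, hn, rfl⟩
      have h3 : ((1, y) : G × K) = (MonoidHom.fst G K).ker.subtype n := by
        apply Prod.ext
        · exact (MonoidHom.mem_ker.1 n.2).symm
        · exact hny.symm
      rw [h3]
      exact h2
    have : ((x, y) : G × K) = (x, 1) * (1, y) := by simp
    rw [this]
    exact mul_mem h1 h1'

end Pool.Agent.Helper75.UF
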