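import Pool.Agent.Helper75.UF.Defs
import Pool.Agent.Helper75.UF.P_map_residual
import Pool.Agent.Helper75.UF.P_residual_times
import Pool.Agent.Helper75.UF.P_coind

set_option autoImplicit false
set_option linter.style.haveILetI false

/-! Definitions for the unique factorisation of products of normally hereditary formations. -/

namespace Pool.Agent.Helper75.UF



/-- Lifting along an epimorphism with minimal normal kernel. -/
theorem lift_min {H : GroupClass} (hH : IsFormation H) (hS : NormallyHereditary H)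
    (hna : NonAbs H) {G P P' : Type} [Group G] [Finite G] [Group P] [Group P'] [Finite P']
    (χ : residual H G →* P) (hχ : Function.Surjective χ) (f : P' →* P)
    (hf : Function.Surjective f)
    (hmin : ∀ L : Subgroup P', L.Normal → L ≤ f.ker → L = ⊥ ∨ L = f.ker) :
    ∃ (G' : Type) (_ : Group G') (_ : Finite G') (g : G' →* G) (_ : Function.Surjective g)
      (χ' : residual H G' →* P'), Function.Surjective χ' ∧
        ∀ x : residual H G', ∃ h : g x ∈ residual H G, f (χ' x) = χ ⟨g x, h⟩ := by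
  classical
  obtain ⟨G1, iG, iF, q, ψ, hq, hψ, hker, -, -⟩ := coind (residual H G) χ f hf
  have hmr := map_residual hH q hq
  have hle : residual H G1 ≤ (residual H G).comap q := by
    rw [← Subgroup.map_le_iff_le_comap, hmr]
  have hψs : Function.Surjective ψ := by
    intro e
    obtain ⟨u, hu⟩ := hχ (f e)
    obtain ⟨x, hx⟩ := hq u
    have hxm : x ∈ (residual H G).comap q := by
      rw [Subgroup.mem_comap, hx]
      exact u.2
    have h1 : f ((ψ ⟨x, hxm⟩)⁻¹ * e) = 1 := by
      have h2 : f (ψ ⟨x, hxm⟩) = f e := by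
        rw [hψ ⟨x, hxm⟩, ← hu]
        congr 1
        exact Subtype.ext hx
      rw [map_mul, map_inv, h2]
      exact inv_mul_cancel _
    obtain ⟨x', -, hx'⟩ := hker _ h1
    exact ⟨⟨x, hxm⟩ * x', by rw [map_mul, hx', mul_inv_cancel_left]⟩
  let ρ : residual H G1 →* P' := ψ.comp (Subgroup.inclusion hle)
  have hρ : ∀ x : residual H G1, f (ρ x) = χ ⟨q x, hle x.2⟩ := fun x =>
    hψ (Subgroup.inclusion hle x)
  have hfP0 : ∀ c : P, ∃ x : residual H G1, f (ρ x) = c := by
    intro c
    obtain ⟨u, hu⟩ := hχ c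
    have hu2 : (u : G) ∈ (residual H G1).map q := by
      rw [hmr]
      exact u.2
    obtain ⟨x, hx, hxu⟩ := hu2
    refine ⟨⟨x, hx⟩, ?_⟩
    rw [hρ, ← hu]
    congr 1
    exact Subtype.ext hxu
  have hP0n : ρ.range.Normal := by
    refine ⟨?_⟩
    rintro _ ⟨x, rfl⟩ e
    obtain ⟨y, rfl⟩ := hψs e
    refine ⟨⟨(y : G1) * x * (y : G1)⁻¹, (residual_normal H G1).conj_mem _ x.2 _⟩, ?_⟩
    show ψ (Subgroup.inclusion hle _) = ψ y * ψ (Subgroup.inclusion hle x) * (ψ y)⁻¹
    rw [← map_mul, ← map_inv, ← map_mul]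
    rfl
  have hdec : ∀ e : P', ∃ x : residual H G1, (ρ x)⁻¹ * e ∈ f.ker := by
    intro e
    obtain ⟨x, hx⟩ := hfP0 (f e)
    exact ⟨x, by rw [MonoidHom.mem_ker, map_mul, map_inv, hx, inv_mul_cancel]⟩
  by_cases hk : f.ker ≤ ρ.range
  · refine ⟨G1, iG, iF, q, hq, ρ, ?_, fun x => ⟨hle x.2, hρ x⟩⟩
    intro e
    obtain ⟨x, hx⟩ := hdec e
    obtain ⟨x', hx'⟩ := hk hx
    exact ⟨x * x', by rw [map_mul, hx', mul_inv_cancel_left]⟩
  · have hbot : ρ.range ⊓ f.ker = ⊥ := by
      rcases hmin (ρ.range ⊓ f.ker) inferInstance inf_le_right with h | h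
      · exact h
      · exact absurd (inf_eq_right.1 h) hk
    have hkne : f.ker ≠ ⊥ := fun h => hk (by rw [h]; exact bot_le)
    have hcomm : ∀ a ∈ ρ.range, ∀ b ∈ f.ker, Commute a b := fun a ha b hb =>
      Subgroup.commute_of_normal_of_disjoint _ _ hP0n inferInstance (disjoint_iff.2 hbot) a b
        ha hb
    have hsimple : IsSimpleGroup f.ker := by
      haveI hnt : Nontrivial f.ker := (Subgroup.nontrivial_iff_ne_bot _).2 hkne
      refine { toNontrivial := hnt, eq_bot_or_eq_top_of_normal := fun L hL => ?_ }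
      have hLn : (L.map f.ker.subtype).Normal := by
        refine ⟨?_⟩
        rintro _ ⟨l, hl, rfl⟩ e
        obtain ⟨x, hx⟩ := hdec e
        let r : f.ker := ⟨(ρ x)⁻¹ * e, hx⟩
        have he : e = ρ x * (r : P') := (mul_inv_cancel_left (ρ x) e).symm
        refine ⟨r * l * r⁻¹, hL.conj_mem l hl r, ?_⟩
        have hc : Commute (ρ x) ((r * l * r⁻¹ : f.ker) : P') :=
          hcomm _ ⟨x, rfl⟩ _ (r * l * r⁻¹ : f.ker).2
        have hc2 : ρ x * ((r * l * r⁻¹ : f.ker) : P') * (ρ x)⁻¹ =
            ((r * l * r⁻¹ : f.ker) : P') := by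
          rw [hc.eq, mul_inv_cancel_right]
        show ((r * l * r⁻¹ : f.ker) : P') = e * (l : P') * e⁻¹
        rw [← hc2, he]
        push_cast
        group
      rcases hmin _ hLn (by rintro _ ⟨l, _, rfl⟩; exact l.2) with h | h
      · left
        exact (Subgroup.map_eq_bot_iff_of_injective _ (Subgroup.subtype_injective _)).1 h
      · right
        apply Subgroup.map_injective (Subgroup.subtype_injective f.ker)
        rw [h, ← MonoidHom.range_eq_map, Subgroup.range_subtype]
    obtain ⟨K, iK, iKF, χ1, hχ1⟩ := hna f.ker hsimple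
    let fP : ρ.range →* P := f.comp ρ.range.subtype
    have hbij : Function.Bijective fP := by
      constructor
      · rw [injective_iff_map_eq_one]
        intro a ha
        have h1 : (a : P') ∈ ρ.range ⊓ f.ker := ⟨a.2, MonoidHom.mem_ker.2 ha⟩
        rw [hbot, Subgroup.mem_bot] at h1
        exact Subtype.ext h1
      · intro c
        obtain ⟨x, hx⟩ := hfP0 c
        exact ⟨⟨ρ x, x, rfl⟩, hx⟩
    let σ : ρ.range ≃* P := MulEquiv.ofBijective fP hbij
    let s : P →* P' := ρ.range.subtype.comp σ.symm.toMonoidHom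
    have hs1 : ∀ c, f (s c) = c := fun c => σ.apply_symm_apply c
    have hs2 : ∀ c, s c ∈ ρ.range := fun c => (σ.symm c).2
    have hs3 : ∀ a ∈ ρ.range, s (f a) = a := fun a ha =>
      congrArg Subtype.val (σ.symm_apply_apply ⟨a, ha⟩)
    have hres : residual H (G × K) = (residual H G).prod (residual H K) := residual_times hH hS
    have hm1 : ∀ x : residual H (G × K), x.1.1 ∈ residual H G := fun x => by
      have h2 : (x : G × K) ∈ (residual H G).prod (residual H K) := by
        rw [← hres]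
        exact x.2
      exact (Subgroup.mem_prod.1 h2).1
    have hm2 : ∀ x : residual H (G × K), x.1.2 ∈ residual H K := fun x => by
      have h2 : (x : G × K) ∈ (residual H G).prod (residual H K) := by
        rw [← hres]
        exact x.2
      exact (Subgroup.mem_prod.1 h2).2
    let κ : residual H (G × K) →* residual H G × residual H K :=
      { toFun := fun x => (⟨x.1.1, hm1 x⟩, ⟨x.1.2, hm2 x⟩)
        map_one' := rfl
        map_mul' := fun _ _ => rfl }
    let τ : residual H G × residual H K →* P' :=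
      MonoidHom.noncommCoprod (s.comp χ) (f.ker.subtype.comp χ1)
        (fun m n => hcomm _ (hs2 _) _ (χ1 n).2)
    refine ⟨G × K, inferInstance, inferInstance, MonoidHom.fst G K, fun g => ⟨(g, 1), rfl⟩,
      τ.comp κ, ?_, ?_⟩
    · intro e
      obtain ⟨x, hx⟩ := hdec e
      obtain ⟨u, hu⟩ := hχ (f (ρ x))
      obtain ⟨y, hy⟩ := hχ1 ⟨(ρ x)⁻¹ * e, hx⟩
      have hmem : ((u : G), (y : K)) ∈ residual H (G × K) := by
        rw [hres]
        exact Subgroup.mem_prod.2 ⟨u.2, y.2⟩
      refine ⟨⟨_, hmem⟩, ?_⟩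
      show s (χ u) * ((χ1 y : f.ker) : P') = e
      rw [hu, hs3 _ ⟨x, rfl⟩, hy]
      exact mul_inv_cancel_left _ _
    · intro x
      refine ⟨hm1 x, ?_⟩
      show f (s (χ ⟨x.1.1, hm1 x⟩) * ((χ1 ⟨x.1.2, hm2 x⟩ : f.ker) : P')) = _
      rw [map_mul, hs1, MonoidHom.mem_ker.1 (χ1 ⟨x.1.2, hm2 x⟩).2, mul_one]
      rfl

end Pool.Agent.Helper75.UF
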