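import Pool.Agent.Helper75.UF.Defs
import Pool.Agent.Helper75.UF.P_lift_min

set_option autoImplicit false
set_option linter.style.haveILetI false

/-! Definitions for the unique factorisation of products of normally hereditary formations. -/

namespace Pool.Agent.Helper75.UF



/-- Lifting along arbitrary epimorphisms. -/
theorem lift_res {H : GroupClass} (hH : IsFormation H) (hS : NormallyHereditary H)
    (hna : NonAbs H) {G P P' : Type} [Group G] [Finite G] [Group P] [Group P'] [Finite P']
    (χ : residual H G →* P) (hχ : Function.Surjective χ) (f : P' →* P)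
    (hf : Function.Surjective f) :
    ∃ (G' : Type) (_ : Group G') (_ : Finite G') (g : G' →* G) (_ : Function.Surjective g)
      (χ' : residual H G' →* P'), Function.Surjective χ' ∧
        ∀ x : residual H G', ∃ h : g x ∈ residual H G, f (χ' x) = χ ⟨g x, h⟩ := by
  obtain ⟨n, hn⟩ : ∃ n : ℕ, Nat.card P' = n := ⟨_, rfl⟩
  induction n using Nat.strong_induction_on generalizing P' with
  | _ n ih =>
    by_cases hker : f.ker = ⊥
    · have hinj : Function.Injective f := (MonoidHom.ker_eq_bot_iff f).1 hker
      let e : P' ≃* P := MulEquiv.ofBijective f ⟨hinj, hf⟩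
      refine ⟨G, inferInstance, inferInstance, MonoidHom.id G, Function.surjective_id,
        e.symm.toMonoidHom.comp χ, ?_, ?_⟩
      · intro y
        obtain ⟨x, hx⟩ := hχ (f y)
        refine ⟨x, ?_⟩
        show e.symm (χ x) = y
        rw [hx]
        exact e.symm_apply_apply y
      · intro x
        refine ⟨x.2, ?_⟩
        show e (e.symm (χ x)) = χ x
        exact e.apply_symm_apply _
    · obtain ⟨R, hRmin⟩ := (Set.toFinite {L : Subgroup P' | L.Normal ∧ L ≠ ⊥ ∧ L ≤ f.ker}).exists_minimal
        ⟨f.ker, inferInstance, hker, le_rfl⟩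
      obtain ⟨hRn, hRb, hRk⟩ := hRmin.prop
      have hcard : Nat.card (P' ⧸ R) < n := by
        rw [← hn, Subgroup.card_eq_card_quotient_mul_card_subgroup R]
        have h1 : 1 < Nat.card R := by
          rw [Subgroup.one_lt_card_iff_ne_bot]
          exact hRb
        have h2 : 0 < Nat.card (P' ⧸ R) := Nat.card_pos
        exact lt_mul_of_one_lt_right h2 h1
      have hf1 : Function.Surjective (QuotientGroup.lift R f hRk) := by
        intro y
        obtain ⟨x, hx⟩ := hf y
        exact ⟨(x : P' ⧸ R), hx⟩
      obtain ⟨G1, i1, i2, g1, hg1, χ1, hχ1, H1⟩ :=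
        ih _ hcard (QuotientGroup.lift R f hRk) hf1 rfl
      obtain ⟨G2, j1, j2, g2, hg2, χ2, hχ2, H2⟩ := lift_min hH hS hna χ1 hχ1
        (QuotientGroup.mk' R) (QuotientGroup.mk'_surjective R) (by
          intro L hL hLR
          rw [QuotientGroup.ker_mk'] at hLR ⊢
          by_cases hb : L = ⊥
          · exact Or.inl hb
          · exact Or.inr (le_antisymm hLR (hRmin.le_of_le ⟨hL, hb, hLR.trans hRk⟩ hLR)))
      refine ⟨G2, j1, j2, g1.comp g2, hg1.comp hg2, χ2, hχ2, ?_⟩
      intro x
      obtain ⟨h2, e2⟩ := H2 x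
      obtain ⟨h1, e1⟩ := H1 ⟨g2 x, h2⟩
      refine ⟨h1, ?_⟩
      rw [← e2] at e1
      exact e1

end Pool.Agent.Helper75.UF
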