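import Pool.Agent.Helper75.UF.Defs
import Pool.Agent.Helper75.UF.P_quot_residual
import Pool.Agent.Helper75.UF.P_map_residual
import Pool.Agent.Helper75.UF.P_lift_res

set_option autoImplicit false
set_option linter.style.haveILetI false

/-! Definitions for the unique factorisation of products of normally hereditary formations. -/

namespace Pool.Agent.Helper75.UF



theorem fam_lift {F H : GroupClass} (hF : IsFormation F) (hH : IsFormation H)
    (hH' : NormallyHereditary H) (hna : NonAbs H) (hHF : Sub H F) {P P' : Type} [Group P]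
    [Group P'] [Finite P'] {P₁ : Subgroup P} (h : Fam F H P₁) (f : P' →* P)
    (hf : Function.Surjective f) : ∃ P₁' : Subgroup P', Fam F H P₁' ∧ P₁'.map f = P₁ := by
  classical
  obtain ⟨G, iG, fG, χ, hχ, hP⟩ := h
  obtain ⟨G', iG', fG', g, hg, χ', hχ', hc⟩ := lift_res hH hH' hna χ hχ f hf
  refine ⟨((residual F G').subgroupOf (residual H G')).map χ', ⟨G', iG', fG', χ', hχ', rfl⟩, ?_⟩
  have hle : residual F G' ≤ residual H G' :=
    residual_le (residual H G') (hHF _ (quot_residual hH G'))
  have hmap : (residual F G').map g = residual F G := map_residual hF g hg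
  rw [hP]
  ext y
  constructor
  · rintro ⟨p, ⟨x, hx, rfl⟩, rfl⟩
    obtain ⟨hgx, he⟩ := hc x
    refine ⟨⟨g x, hgx⟩, ?_, he.symm⟩
    have h1 : (x : G') ∈ residual F G' := hx
    have h2 : g x ∈ residual F G := by
      rw [← hmap]; exact ⟨x, h1, rfl⟩
    exact h2
  · rintro ⟨z, hz, rfl⟩
    have h1 : (z : G) ∈ residual F G := hz
    rw [← hmap] at h1
    obtain ⟨w, hw, hwz⟩ := h1
    obtain ⟨hgx, he⟩ := hc ⟨w, hle hw⟩
    refine ⟨χ' ⟨w, hle hw⟩, ⟨⟨w, hle hw⟩, hw, rfl⟩, ?_⟩
    rw [he]
    congr 1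
    exact Subtype.ext hwz

end Pool.Agent.Helper75.UF
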