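import Pool.Agent.Helper75.UF.Defs
import Pool.Agent.Helper75.UF.P_quot_residual
import Pool.Agent.Helper75.UF.P_residual_le_ker
import Pool.Agent.Helper75.UF.P_map_residual

set_option autoImplicit false
set_option linter.style.haveILetI false

/-! Definitions for the unique factorisation of products of normally hereditary formations. -/

namespace Pool.Agent.Helper75.UF



theorem residual_prod {A F : GroupClass} (hA : IsFormation A) (hF : IsFormation F) (G : Type)
    [Group G] [Finite G] :
    residual (Product A F) G = (residual A (residual F G)).map (residual F G).subtype := by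
  have key : ∀ (N : Subgroup G) [N.Normal], A (residual F (G ⧸ N)) ↔
      (residual A (residual F G)).map (residual F G).subtype ≤ N := by
    intro N _
    rw [← map_residual hF (QuotientGroup.mk' N) (QuotientGroup.mk'_surjective N)]
    rw [← residual_le_ker hA ((QuotientGroup.mk' N).subgroupMap (residual F G))
      ((QuotientGroup.mk' N).subgroupMap_surjective (residual F G))]
    constructor
    · rintro h x ⟨y, hy, rfl⟩
      have h1 := h hy
      rw [MonoidHom.mem_ker] at h1
      have h2 := congrArg Subtype.val h1
      have h3 : QuotientGroup.mk' N (y : G) = 1 := h2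
      rw [QuotientGroup.mk'_apply, QuotientGroup.eq_one_iff] at h3
      exact h3
    · intro h y hy
      rw [MonoidHom.mem_ker]
      apply Subtype.ext
      show QuotientGroup.mk' N (y : G) = 1
      rw [QuotientGroup.mk'_apply, QuotientGroup.eq_one_iff]
      exact h ⟨y, hy, rfl⟩
  have hKn : ((residual A (residual F G)).map (residual F G).subtype).Normal := by
    constructor
    rintro _ ⟨x, hx, rfl⟩ g
    have h1 := map_residual hA (MulAut.conjNormal g : MulAut (residual F G)).toMonoidHom
      (MulAut.conjNormal g : MulAut (residual F G)).surjective
    have h2 : (MulAut.conjNormal g : MulAut (residual F G)) x ∈ residual A (residual F G) := by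
      rw [← h1]
      exact ⟨x, hx, rfl⟩
    exact ⟨_, h2, by simp [MulAut.conjNormal_apply]⟩
  apply le_antisymm
  · refine residual_le _ ⟨inferInstance, ?_⟩
    exact (key _).2 le_rfl
  · refine le_sInf ?_
    rintro N ⟨hN, hP⟩
    exact (key N).1 hP.2

end Pool.Agent.Helper75.UF
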