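import Pool.Agent.Helper75.UF.Defs
import Pool.Agent.Helper75.UF.P_quot_residual
import Pool.Agent.Helper75.UF.P_residual_le_ker
import Pool.Agent.Helper75.UF.P_residual_prod

set_option autoImplicit false
set_option linter.style.haveILetI false

/-! Definitions for the unique factorisation of products of normally hereditary formations. -/

namespace Pool.Agent.Helper75.UF



theorem fam_mem {A B F H : GroupClass} (hA : IsFormation A) (hB : IsFormation B)
    (hF : IsFormation F) (hH : IsFormation H) (hHF : Sub H F) (h : Product A F = Product B H)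
    {P : Type} [Group P] {P₁ : Subgroup P} (hP : Fam F H P₁) : A P₁ ↔ B P := by
  obtain ⟨G, _, _, χ, hχ, hP₁⟩ := hP
  have hle : residual F G ≤ residual H G := residual_le (residual H G) (hHF _ (quot_residual hH G))
  have hcom : (residual A (residual F G)).map (residual F G).subtype =
      (residual B (residual H G)).map (residual H G).subtype := by
    rw [← residual_prod hA hF G, ← residual_prod hB hH G, h]
  have hmem : ∀ x : residual F G, χ ⟨x.1, hle x.2⟩ ∈ P₁ := by
    intro x
    rw [hP₁]
    exact ⟨⟨x.1, hle x.2⟩, by rw [SetLike.mem_coe, Subgroup.mem_subgroupOf]; exact x.2, rfl⟩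
  obtain ⟨ψ, hψ⟩ : ∃ ψ : residual F G →* P₁, ∀ x, (ψ x : P) = χ ⟨x.1, hle x.2⟩ := by
    refine ⟨(χ.comp (Subgroup.inclusion hle)).codRestrict P₁ (fun x => hmem x), fun x => rfl⟩
  have hψs : Function.Surjective ψ := by
    rintro ⟨y, hy⟩
    have hy' := hy
    rw [hP₁] at hy'
    obtain ⟨x, hx, hxy⟩ := hy'
    rw [SetLike.mem_coe, Subgroup.mem_subgroupOf] at hx
    refine ⟨⟨x.1, hx⟩, ?_⟩
    apply Subtype.ext
    rw [hψ]
    exact hxy
  rw [← residual_le_ker hA ψ hψs, ← residual_le_ker hB χ hχ]
  have c1 : residual A (residual F G) ≤ ψ.ker ↔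
      ∀ x ∈ (residual A (residual F G)).map (residual F G).subtype, ∀ hx : x ∈ residual H G,
        χ ⟨x, hx⟩ = 1 := by
    constructor
    · intro hk x hx hxH
      obtain ⟨y, hy, rfl⟩ := hx
      have h1 := hk hy
      rw [MonoidHom.mem_ker] at h1
      have h2 := hψ y
      rw [h1] at h2
      exact h2.symm
    · intro hk y hy
      rw [MonoidHom.mem_ker]
      apply Subtype.ext
      rw [hψ]
      exact hk y.1 ⟨y, hy, rfl⟩ (hle y.2)
  have c2 : residual B (residual H G) ≤ χ.ker ↔
      ∀ x ∈ (residual B (residual H G)).map (residual H G).subtype, ∀ hx : x ∈ residual H G,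
        χ ⟨x, hx⟩ = 1 := by
    constructor
    · intro hk x hx hxH
      obtain ⟨y, hy, rfl⟩ := hx
      have h1 := hk hy
      rw [MonoidHom.mem_ker] at h1
      exact h1
    · intro hk y hy
      rw [MonoidHom.mem_ker]
      exact hk y.1 ⟨y, hy, rfl⟩ y.2
  rw [c1, c2, hcom]

end Pool.Agent.Helper75.UF
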