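import Pool.Agent.Helper75.UF.Defs

set_option autoImplicit false
set_option linter.style.haveILetI false

/-! Definitions for the unique factorisation of products of normally hereditary formations. -/

namespace Pool.Agent.Helper75.UF



theorem fam_normal {F H : GroupClass} {P : Type} [Group P] {P₁ : Subgroup P} (h : Fam F H P₁) :
    P₁.Normal := by
  obtain ⟨G, i1, i2, χ, hχ, rfl⟩ := h
  have h1 : ((residual F G).subgroupOf (residual H G)).Normal :=
    Subgroup.normal_subgroupOf
  exact h1.map χ hχ

end Pool.Agent.Helper75.UF
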