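import Pool.Agent.Helper75.UF.Defs
import Pool.Agent.Helper75.UF.P_residual_times

set_option autoImplicit false
set_option linter.style.haveILetI false

/-! Definitions for the unique factorisation of products of normally hereditary formations. -/

namespace Pool.Agent.Helper75.UF



theorem fam_times {F H : GroupClass} (hF : IsFormation F) (hF' : NormallyHereditary F)
    (hH : IsFormation H) (hH' : NormallyHereditary H) {P Q : Type} [Group P] [Group Q]
    {P₁ : Subgroup P} {Q₁ : Subgroup Q} (h : Fam F H P₁) (h' : Fam F H Q₁) :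
    Fam F H (P₁.prod Q₁) := by
  obtain ⟨G, iG, fG, χ, hχ, hP⟩ := h
  obtain ⟨K, iK, fK, χ', hχ', hQ⟩ := h'
  have hRH : residual H (G × K) = (residual H G).prod (residual H K) := residual_times hH hH'
  have hRF : residual F (G × K) = (residual F G).prod (residual F K) := residual_times hF hF'
  have hm : ∀ u : residual H (G × K), (u : G × K).1 ∈ residual H G ∧
      (u : G × K).2 ∈ residual H K := fun u => by
    have h1 : (u : G × K) ∈ (residual H G).prod (residual H K) := hRH.le u.2
    exact Subgroup.mem_prod.mp h1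
  let p1 : residual H (G × K) →* residual H G :=
    ((MonoidHom.fst G K).comp (residual H (G × K)).subtype).codRestrict (residual H G)
      (fun u => (hm u).1)
  let p2 : residual H (G × K) →* residual H K :=
    ((MonoidHom.snd G K).comp (residual H (G × K)).subtype).codRestrict (residual H K)
      (fun u => (hm u).2)
  let ψ : residual H (G × K) →* P × Q := MonoidHom.prod (χ.comp p1) (χ'.comp p2)
  have hψ : ∀ (x : residual H G) (y : residual H K) (hxy : ((x : G), (y : K)) ∈ residual H (G × K)),
      ψ ⟨((x : G), (y : K)), hxy⟩ = (χ x, χ' y) := fun x y hxy => rfl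
  have hmem : ∀ (x : residual H G) (y : residual H K), ((x : G), (y : K)) ∈ residual H (G × K) :=
    fun x y => by
      rw [hRH, Subgroup.mem_prod]
      exact ⟨x.2, y.2⟩
  refine ⟨G × K, inferInstance, inferInstance, ψ, ?_, ?_⟩
  · rintro ⟨a, b⟩
    obtain ⟨x, rfl⟩ := hχ a
    obtain ⟨y, rfl⟩ := hχ' b
    exact ⟨⟨((x : G), (y : K)), hmem x y⟩, hψ x y _⟩
  · ext ⟨a, b⟩
    rw [Subgroup.mem_prod, hP, hQ]
    constructor
    · rintro ⟨⟨x, hx, hxa⟩, ⟨y, hy, hyb⟩⟩
      refine ⟨⟨((x : G), (y : K)), hmem x y⟩, ?_, ?_⟩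
      · have hx' := Subgroup.mem_subgroupOf.mp hx
        have hy' := Subgroup.mem_subgroupOf.mp hy
        refine Subgroup.mem_subgroupOf.mpr ?_
        change ((x : G), (y : K)) ∈ residual F (G × K)
        rw [hRF, Subgroup.mem_prod]
        exact ⟨hx', hy'⟩
      · rw [hψ, hxa, hyb]
    · rintro ⟨u, hu, hua⟩
      have hu'' : (u : G × K) ∈ residual F (G × K) := Subgroup.mem_subgroupOf.mp hu
      have hu' := Subgroup.mem_prod.mp (hRF.le hu'')
      have h1 : ψ u = (χ (p1 u), χ' (p2 u)) := rfl
      rw [h1, Prod.mk.injEq] at hua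
      exact ⟨⟨p1 u, Subgroup.mem_subgroupOf.mpr hu'.1, hua.1⟩,
        ⟨p2 u, Subgroup.mem_subgroupOf.mpr hu'.2, hua.2⟩⟩

end Pool.Agent.Helper75.UF
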