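import Pool.Agent.Helper75.UF.Defs
import Pool.Agent.Helper75.UF.P_sub_mem
import Pool.Agent.Helper75.UF.P_coind_abs
import Pool.Agent.Helper75.UF.P_fam_normal
import Pool.Agent.Helper75.UF.P_fam_lift
import Pool.Agent.Helper75.UF.P_fam_times
import Pool.Agent.Helper75.UF.P_fam_mem

set_option autoImplicit false
set_option linter.style.haveILetI false

/-! Definitions for the unique factorisation of products of normally hereditary formations. -/

namespace Pool.Agent.Helper75.UF



theorem fam_abs {A B F H : GroupClass} (hA : IsFormation A) (hA' : NormallyHereditary A)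
    (hB : IsFormation B) (hF : IsFormation F) (hF' : NormallyHereditary F) (hH : IsFormation H)
    (hH' : NormallyHereditary H) (hna : NonAbs H) (hHF : Sub H F) (h : Product A F = Product B H)
    {P : Type} [Group P] [Finite P] {P₁ : Subgroup P} (hP : Fam F H P₁)
    (hP0 : Fam F H (⊥ : Subgroup P)) : Abs A P₁ A := by
  intro E _ _ π hπ hker
  by_cases hP1 : P₁ = ⊥
  · subst hP1
    have hk : π.ker = ⊤ := by
      rw [eq_top_iff]
      intro x _
      rw [MonoidHom.mem_ker]
      exact Subsingleton.elim _ _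
    exact hA.iso _ _ ⟨(MulEquiv.subgroupCongr hk).trans Subgroup.topEquiv⟩ hker
  · haveI hPn : P₁.Normal := fam_normal hP
    let φ : (P₁.prod (⊥ : Subgroup P)) →* P₁ :=
      ((MonoidHom.fst P P).comp (P₁.prod (⊥ : Subgroup P)).subtype).codRestrict P₁
        (fun x => (Subgroup.mem_prod.1 x.2).1)
    have hφ : Function.Surjective φ := by
      intro x
      refine ⟨⟨((x : P), 1), Subgroup.mem_prod.2 ⟨x.2, Subgroup.mem_bot.2 rfl⟩⟩, ?_⟩
      apply Subtype.ext
      rfl
    obtain ⟨P', _, _, f, hf, h1, _, h3⟩ := coind_abs (P₁.prod (⊥ : Subgroup P)) φ hφ π hπ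
    have hkerf : A f.ker := h1 A hA hker
    have hFb : Fam F H ((⊥ : Subgroup P).prod (⊥ : Subgroup P)) :=
      fam_times hF hF' hH hH' hP0 hP0
    have hFp : Fam F H (P₁.prod P₁) := fam_times hF hF' hH hH' hP hP
    obtain ⟨L1, hL1, hL1m⟩ := fam_lift hF hH hH' hna hHF hFb f hf
    obtain ⟨L2, hL2, hL2m⟩ := fam_lift hF hH hH' hna hHF hFp f hf
    haveI hL1n : L1.Normal := fam_normal hL1
    have hL1k : L1 ≤ f.ker := by
      intro x hx
      rw [MonoidHom.mem_ker]
      have h4 : f x ∈ L1.map f := Subgroup.mem_map_of_mem f hx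
      rw [hL1m, Subgroup.mem_prod, Subgroup.mem_bot, Subgroup.mem_bot] at h4
      exact Prod.ext h4.1 h4.2
    have hAL1 : A L1 := sub_mem hA hA' f.ker L1 hL1k hkerf
    have hBP : B P' := (fam_mem hA hB hF hH hHF h hL1).1 hAL1
    have hAL2 : A L2 := (fam_mem hA hB hF hH hHF h hL2).2 hBP
    refine h3 A hA hA' L2 (fam_normal hL2) ?_ ?_ hAL2
    · rw [hL2m]
      intro x hx
      rw [Subgroup.mem_prod] at hx ⊢
      refine ⟨hx.1, ?_⟩
      rw [Subgroup.mem_bot.1 hx.2]
      exact P₁.one_mem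
    · rw [hL2m]
      intro hle
      apply hP1
      rw [eq_bot_iff]
      intro x hx
      have h5 : ((1 : P), x) ∈ P₁.prod (⊥ : Subgroup P) :=
        hle (Subgroup.mem_prod.2 ⟨P₁.one_mem, hx⟩)
      exact (Subgroup.mem_prod.1 h5).2

end Pool.Agent.Helper75.UF
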