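import Pool.Agent.Helper75.UF.Defs

set_option autoImplicit false
set_option linter.style.haveILetI false

/-! Definitions for the unique factorisation of products of normally hereditary formations. -/

namespace Pool.Agent.Helper75.UF



theorem fam_map {F H : GroupClass} {P P' : Type} [Group P] [Group P'] {P₁ : Subgroup P}
    (h : Fam F H P₁) (f : P →* P') (hf : Function.Surjective f) : Fam F H (P₁.map f) := by
  obtain ⟨G, hG, hfin, χ, hχ, rfl⟩ := h
  refine ⟨G, hG, hfin, f.comp χ, hf.comp hχ, ?_⟩
  rw [Subgroup.map_map]

end Pool.Agent.Helper75.UF
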