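import Pool.Agent.Helper75.UF.Defs
import Pool.Agent.Helper75.UF.P_fam_normal
import Pool.Agent.Helper75.UF.P_fam_map
import Pool.Agent.Helper75.UF.P_fam_abs

set_option autoImplicit false
set_option linter.style.haveILetI false

/-! Definitions for the unique factorisation of products of normally hereditary formations. -/

namespace Pool.Agent.Helper75.UF



theorem fam_unique_le {A B F H : GroupClass} (hA : IsFormation A) (hA' : NormallyHereditary A)
    (hnA : NoAbs A) (hB : IsFormation B) (hF : IsFormation F) (hF' : NormallyHereditary F)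
    (hH : IsFormation H) (hH' : NormallyHereditary H) (hna : NonAbs H) (hHF : Sub H F)
    (h : Product A F = Product B H) {P : Type} [Group P] [Finite P] {P₁ P₂ : Subgroup P}
    (hP₁ : Fam F H P₁) (hP₂ : Fam F H P₂) : P₂ ≤ P₁ := by
  haveI := fam_normal hP₁
  have hq : Function.Surjective (QuotientGroup.mk' P₁) := QuotientGroup.mk'_surjective P₁
  have h1 := fam_map hP₁ (QuotientGroup.mk' P₁) hq
  have h2 := fam_map hP₂ (QuotientGroup.mk' P₁) hq
  rw [QuotientGroup.map_mk'_self] at h1
  have h3 := fam_abs hA hA' hB hF hF' hH hH' hna hHF h h2 h1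
  haveI hs : Subsingleton ↥(P₂.map (QuotientGroup.mk' P₁)) := hnA _ h3
  have h4 : P₂.map (QuotientGroup.mk' P₁) = ⊥ := by
    rw [Subgroup.eq_bot_iff_forall]
    intro x hx
    have := hs.elim ⟨x, hx⟩ 1
    exact congrArg Subtype.val this
  rw [Subgroup.map_eq_bot_iff, QuotientGroup.ker_mk'] at h4
  exact h4

theorem fam_unique {A B F H : GroupClass} (hA : IsFormation A) (hA' : NormallyHereditary A)
    (hnA : NoAbs A) (hB : IsFormation B) (hF : IsFormation F) (hF' : NormallyHereditary F)
    (hH : IsFormation H) (hH' : NormallyHereditary H) (hna : NonAbs H) (hHF : Sub H F)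
    (h : Product A F = Product B H) {P : Type} [Group P] [Finite P] {P₁ P₂ : Subgroup P}
    (hP₁ : Fam F H P₁) (hP₂ : Fam F H P₂) : P₁ = P₂ :=
  le_antisymm (fam_unique_le hA hA' hnA hB hF hF' hH hH' hna hHF h hP₂ hP₁)
    (fam_unique_le hA hA' hnA hB hF hF' hH hH' hna hHF h hP₁ hP₂)

end Pool.Agent.Helper75.UF
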