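import Pool.Agent.Helper75.UF.Defs

set_option autoImplicit false
set_option linter.style.haveILetI false

/-! Definitions for the unique factorisation of products of normally hereditary formations. -/

namespace Pool.Agent.Helper75.UF



theorem es_surj_aux {S : Type} [Group S] (hS : IsSimpleGroup S) {G : Type} [Group G]
    (h : ES S G) : ∀ (K : Type) [Group K] (f : G →* K), Function.Surjective f → ES S K := by
  induction h with
  | triv G hG =>
    intro K _ f hf
    exact ES.triv K hf.subsingleton
  | ext G N hES hiso ih =>
    intro K _ f hf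
    obtain ⟨e⟩ := hiso
    haveI hN' : (N.map f).Normal := Subgroup.Normal.map inferInstance f hf
    have hsurj : Function.Surjective (f.subgroupMap N) := f.subgroupMap_surjective N
    have hES' : ES S (N.map f) := ih _ (f.subgroupMap N) hsurj
    let q : G ⧸ N →* K ⧸ N.map f := QuotientGroup.map N (N.map f) f (Subgroup.le_comap_map f N)
    have hq : Function.Surjective q := by
      intro y
      obtain ⟨k, rfl⟩ := QuotientGroup.mk_surjective y
      obtain ⟨g, rfl⟩ := hf k
      exact ⟨(g : G ⧸ N), rfl⟩
    let r : S →* K ⧸ N.map f := q.comp e.symm.toMonoidHom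
    have hr : Function.Surjective r := hq.comp e.symm.surjective
    rcases hS.eq_bot_or_eq_top_of_normal r.ker inferInstance with hb | ht
    · have hinj : Function.Injective r := (MonoidHom.ker_eq_bot_iff r).1 hb
      exact ES.ext K (N.map f) hES' ⟨(MulEquiv.ofBijective r ⟨hinj, hr⟩).symm⟩
    · have htop : N.map f = ⊤ := by
        rw [eq_top_iff]
        intro k _
        obtain ⟨s, hs⟩ := hr (k : K ⧸ N.map f)
        have h1 : s ∈ r.ker := by rw [ht]; exact Subgroup.mem_top s
        rw [MonoidHom.mem_ker] at h1
        rw [h1] at hs
        exact (QuotientGroup.eq_one_iff k).1 hs.symm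
      refine ih K (f.comp N.subtype) ?_
      intro k
      have h2 : k ∈ N.map f := by rw [htop]; exact Subgroup.mem_top k
      obtain ⟨n, hn, rfl⟩ := h2
      exact ⟨⟨n, hn⟩, rfl⟩

theorem es_surj {S : Type} [Group S] [Finite S] (hS : IsSimpleGroup S) {G K : Type} [Group G]
    [Group K] (h : ES S G) (f : G →* K) (hf : Function.Surjective f) : ES S K :=
  es_surj_aux hS h K f hf

end Pool.Agent.Helper75.UF
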