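import Pool.Agent.Helper75.UF.Defs
import Pool.Agent.Helper75.UF.P_es_surj

set_option autoImplicit false
set_option linter.style.haveILetI false

/-! Definitions for the unique factorisation of products of normally hereditary formations. -/

namespace Pool.Agent.Helper75.UF



theorem es_ext {S : Type} [Group S] [Finite S] (hS : IsSimpleGroup S) {G K : Type} [Group G]
    [Group K] (f : G →* K) (hf : Function.Surjective f) (h1 : ES S f.ker) (h2 : ES S K) :
    ES S G := by
  induction h2 generalizing G with
  | triv K hK =>
    refine es_surj hS h1 f.ker.subtype (fun x => ⟨⟨x, ?_⟩, rfl⟩)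
    rw [MonoidHom.mem_ker]
    exact Subsingleton.elim _ _
  | @ext K _ N _ hN hq ih =>
    let f1 : (N.comap f) →* N := f.subgroupComap N
    have hf1 : Function.Surjective f1 := by
      rintro ⟨y, hy⟩
      obtain ⟨x, rfl⟩ := hf y
      exact ⟨⟨x, hy⟩, rfl⟩
    let ψ : f.ker →* f1.ker :=
      { toFun := fun x => ⟨⟨x.1, by
            rw [Subgroup.mem_comap, MonoidHom.mem_ker.1 x.2]
            exact N.one_mem⟩, by
            rw [MonoidHom.mem_ker]
            apply Subtype.ext
            show f x.1 = 1
            exact MonoidHom.mem_ker.1 x.2⟩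
        map_one' := rfl
        map_mul' := fun _ _ => rfl }
    have hψ : Function.Surjective ψ := by
      rintro ⟨⟨x, hx⟩, hx'⟩
      refine ⟨⟨x, ?_⟩, rfl⟩
      rw [MonoidHom.mem_ker] at hx' ⊢
      exact congrArg Subtype.val hx'
    have h3 : ES S f1.ker := es_surj hS h1 ψ hψ
    have h4 : ES S (N.comap f) := ih f1 hf1 h3
    obtain ⟨e⟩ := hq
    have hsur : Function.Surjective ((QuotientGroup.mk' N).comp f) :=
      (QuotientGroup.mk'_surjective N).comp hf
    have hker : N.comap f = ((QuotientGroup.mk' N).comp f).ker := by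
      ext x
      rw [Subgroup.mem_comap, MonoidHom.mem_ker, MonoidHom.comp_apply, QuotientGroup.mk'_apply,
        QuotientGroup.eq_one_iff]
    refine ES.ext G (N.comap f) h4 ⟨((QuotientGroup.quotientMulEquivOfEq hker).trans
      (QuotientGroup.quotientKerEquivOfSurjective _ hsur)).trans e⟩

end Pool.Agent.Helper75.UF

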