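import Pool.Agent.Helper75.UF.Defs
import Pool.Agent.Helper75.UF.P_es_surj

set_option autoImplicit false
set_option linter.style.haveILetI false

/-! Definitions for the unique factorisation of products of normally hereditary formations. -/

namespace Pool.Agent.Helper75.UF



theorem j27673_step {S : Type} [Group S] [Finite S] (hS : IsSimpleGroup S) {G : Type} [Group G]
    (M : Subgroup G) [M.Normal] (e : (G ⧸ M) ≃* S) (N : Subgroup G) [hN : N.Normal]
    (h : ES S (N.subgroupOf M)) : ES S N := by
  let π : G →* S := e.toMonoidHom.comp (QuotientGroup.mk' M)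
  have hπ : Function.Surjective π := e.surjective.comp (QuotientGroup.mk'_surjective M)
  have hker : ∀ x : G, π x = 1 ↔ x ∈ M := by
    intro x
    change e (QuotientGroup.mk' M x) = 1 ↔ x ∈ M
    rw [map_eq_one_iff e e.injective]
    exact QuotientGroup.eq_one_iff x
  let f : N →* S := π.comp N.subtype
  let k : (N.subgroupOf M) →* N :=
    { toFun := fun x => ⟨x.1.1, x.2⟩
      map_one' := rfl
      map_mul' := fun _ _ => rfl }
  have hr : f.range = N.map π := by
    rw [MonoidHom.range_comp, Subgroup.range_subtype]
  have hnorm : f.range.Normal := by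
    rw [hr]
    exact hN.map π hπ
  rcases hS.eq_bot_or_eq_top_of_normal f.range hnorm with hb | ht
  · have hk : Function.Surjective k := by
      intro y
      have h1 : f y ∈ f.range := ⟨y, rfl⟩
      rw [hb, Subgroup.mem_bot] at h1
      have h2 : (y : G) ∈ M := (hker y).1 h1
      exact ⟨⟨⟨y, h2⟩, y.2⟩, rfl⟩
    exact es_surj hS h k hk
  · have hf : Function.Surjective f := MonoidHom.range_eq_top.1 ht
    let k' : (N.subgroupOf M) →* f.ker := k.codRestrict f.ker (fun x => (hker _).2 x.1.2)
    have hk' : Function.Surjective k' := by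
      rintro ⟨y, hy⟩
      have h2 : (y : G) ∈ M := (hker y).1 hy
      exact ⟨⟨⟨y, h2⟩, y.2⟩, rfl⟩
    exact ES.ext N f.ker (es_surj hS h k' hk')
      ⟨QuotientGroup.quotientKerEquivOfSurjective f hf⟩

theorem es_normal {S : Type} [Group S] [Finite S] (hS : IsSimpleGroup S) {G : Type} [Group G]
    (N : Subgroup G) [hN : N.Normal] (h : ES S G) : ES S N := by
  revert N
  induction h with
  | triv G hG =>
    intro N hN
    exact ES.triv N ⟨fun a b => Subtype.ext (hG.elim _ _)⟩
  | ext G M hM he ih =>
    intro N hN
    obtain ⟨e⟩ := he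
    exact j27673_step hS M e N (ih (N.subgroupOf M))

end Pool.Agent.Helper75.UF
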