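import Pool.Agent.Helper75.UF.Defs
import Pool.Agent.Helper75.UF.P_es_surj
import Pool.Agent.Helper75.UF.P_es_normal
import Pool.Agent.Helper75.UF.P_es_ext

set_option autoImplicit false
set_option linter.style.haveILetI false

/-! Definitions for the unique factorisation of products of normally hereditary formations. -/

namespace Pool.Agent.Helper75.UF



theorem es_formation_finite {S : Type} [Group S] [Finite S] {G : Type} [inst : Group G]
    (h : ES S G) : Finite G := by
  induction h with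
  | triv G h => exact Finite.of_subsingleton
  | ext G N h1 h2 ih =>
    obtain ⟨e⟩ := h2
    haveI : Finite N := ih
    haveI : Finite (G ⧸ N) := Finite.of_equiv S e.symm.toEquiv
    exact Finite.of_equiv _ (Subgroup.groupEquivQuotientProdSubgroup (s := N)).symm

theorem es_formation_sub {S : Type} [Group S] [Finite S] (hS : IsSimpleGroup S) {G : Type}
    [Group G] (M N : Subgroup G) [M.Normal] [N.Normal] (hM : ES S (G ⧸ M)) (hN : ES S (G ⧸ N)) :
    ES S (G ⧸ (M ⊓ N)) := by
  obtain ⟨a, ha⟩ : ∃ a : (G ⧸ (M ⊓ N)) →* (G ⧸ M), ∀ g : G, a (g : G ⧸ (M ⊓ N)) = (g : G ⧸ M) :=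
    ⟨QuotientGroup.map (M ⊓ N) M (MonoidHom.id G) (fun x hx => hx.1), fun g => rfl⟩
  obtain ⟨b, hb⟩ : ∃ b : (G ⧸ (M ⊓ N)) →* (G ⧸ N), ∀ g : G, b (g : G ⧸ (M ⊓ N)) = (g : G ⧸ N) :=
    ⟨QuotientGroup.map (M ⊓ N) N (MonoidHom.id G) (fun x hx => hx.2), fun g => rfl⟩
  have has : Function.Surjective a := by
    intro y
    obtain ⟨g, rfl⟩ := QuotientGroup.mk_surjective y
    exact ⟨_, ha g⟩
  have hbs : Function.Surjective b := by
    intro y
    obtain ⟨g, rfl⟩ := QuotientGroup.mk_surjective y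
    exact ⟨_, hb g⟩
  refine es_ext hS a has ?_ hM
  haveI : (a.ker.map b).Normal := Subgroup.Normal.map inferInstance b hbs
  have h1 : ES S (a.ker.map b) := es_normal hS (a.ker.map b) hN
  have hinj : Function.Injective (b.subgroupMap a.ker) := by
    rw [injective_iff_map_eq_one]
    rintro ⟨x, hx⟩ h2
    obtain ⟨g, rfl⟩ := QuotientGroup.mk_surjective x
    have h3 : b (g : G ⧸ (M ⊓ N)) = 1 := congrArg Subtype.val h2
    have h4 : a (g : G ⧸ (M ⊓ N)) = 1 := hx
    rw [hb, QuotientGroup.eq_one_iff] at h3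
    rw [ha, QuotientGroup.eq_one_iff] at h4
    apply Subtype.ext
    show (g : G ⧸ (M ⊓ N)) = 1
    rw [QuotientGroup.eq_one_iff]
    exact ⟨h4, h3⟩
  have e : a.ker ≃* a.ker.map b :=
    MulEquiv.ofBijective (b.subgroupMap a.ker) ⟨hinj, b.subgroupMap_surjective a.ker⟩
  exact es_surj hS h1 e.symm.toMonoidHom e.symm.surjective

theorem es_formation {S : Type} [Group S] [Finite S] (hS : IsSimpleGroup S) :
    IsFormation (ES S) := by
  refine ⟨⟨PUnit, inferInstance, ES.triv PUnit inferInstance⟩, ?_, ?_, ?_, ?_⟩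
  · intro G _ h
    exact es_formation_finite h
  · rintro G H _ _ ⟨e⟩ h
    exact es_surj hS h e.toMonoidHom e.surjective
  · intro G _ N _ h
    exact es_surj hS h (QuotientGroup.mk' N) (QuotientGroup.mk'_surjective N)
  · intro G _ _ M N _ _ hM hN
    exact es_formation_sub hS M N hM hN

end Pool.Agent.Helper75.UF
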