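import Pool.Agent.Helper75.UF.Defs
import Pool.Agent.Helper75.UF.P_residual_eq_bot
import Pool.Agent.Helper75.UF.P_es_formation

set_option autoImplicit false
set_option linter.style.haveILetI false

/-! Definitions for the unique factorisation of products of normally hereditary formations. -/

namespace Pool.Agent.Helper75.UF



theorem es_cases_aux {S : Type} [Group S] {G : Type} [Group G] (h : ES S G) :
    Subsingleton G ∨ ∃ χ : G →* S, Function.Surjective χ := by
  cases h with
  | triv _ h => exact Or.inl h
  | ext _ N hN hiso =>
    obtain ⟨e⟩ := hiso
    exact Or.inr ⟨e.toMonoidHom.comp (QuotientGroup.mk' N),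
      e.surjective.comp (QuotientGroup.mk'_surjective N)⟩

theorem nonabs_of_indecomposable {H : GroupClass} (hH : Indecomposable H) : NonAbs H := by
  intro S _ _ hS
  by_contra hcon
  have hF := hH.formation
  have hES : IsFormation (ES S) := es_formation hS
  have hprod : H = Product (ES S) H := by
    apply class_ext
    intro G _
    constructor
    · intro hG
      haveI : Finite G := hF.finite G hG
      refine ⟨inferInstance, ?_⟩
      rw [(residual_eq_bot hF).mpr hG]
      exact ES.triv _ inferInstance
    · rintro ⟨hfin, hes⟩
      haveI := hfin
      rcases es_cases_aux hes with h | ⟨χ, hχ⟩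
      · exact (residual_eq_bot hF).mp (Subgroup.eq_bot_of_subsingleton _)
      · exact absurd ⟨G, _, hfin, χ, hχ⟩ hcon
  rcases hH.not_prod (ES S) H hES hF hprod with h | h
  · have h1 : ES S S := ES.ext S ⊥ (ES.triv _ inferInstance) ⟨QuotientGroup.quotientBot⟩
    have h2 : Triv S := by
      rw [← h]
      exact h1
    have h3 : Nontrivial S := hS.toNontrivial
    have h4 : Subsingleton S := h2
    exact not_subsingleton S h4
  · exact hH.ne_one h

end Pool.Agent.Helper75.UF
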