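import Pool.Agent.Helper75.UF.Defs

set_option autoImplicit false
set_option linter.style.haveILetI false

/-! Definitions for the unique factorisation of products of normally hereditary formations. -/

namespace Pool.Agent.Helper75.UF



theorem fam_self (F H : GroupClass) (G : Type) [Group G] [Finite G] :
    Fam F H ((residual F G).subgroupOf (residual H G)) := by
  refine ⟨G, inferInstance, inferInstance, MonoidHom.id _, Function.surjective_id, ?_⟩
  exact (Subgroup.map_id _).symm

end Pool.Agent.Helper75.UF
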