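import Pool.Agent.Helper75.UF.Defs
import Pool.Agent.Helper75.UF.P_fam_map
import Pool.Agent.Helper75.UF.P_fam_lift
import Pool.Agent.Helper75.UF.P_fam_self

set_option autoImplicit false
set_option linter.style.haveILetI false

/-! Definitions for the unique factorisation of products of normally hereditary formations. -/

namespace Pool.Agent.Helper75.UF



theorem qc_formation_unit (F H : GroupClass) : Fam F H (⊥ : Subgroup Unit) := by
  have h1 := fam_self F H Unit
  have h2 := fam_map h1 (1 : residual H Unit →* Unit) (fun x => ⟨1, Subsingleton.elim _ _⟩)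
  have h3 : ((residual F Unit).subgroupOf (residual H Unit)).map (1 : residual H Unit →* Unit) =
      ⊥ := Subgroup.eq_bot_of_subsingleton _
  rw [h3] at h2
  exact h2

theorem qc_formation_map {F H : GroupClass} {P P' : Type} [Group P] [Group P']
    (h : QC F H P) (f : P →* P') (hf : Function.Surjective f) : QC F H P' := by
  have hfin : Finite P := h.1
  refine ⟨Finite.of_surjective f hf, ?_⟩
  have h2 := fam_map h.2 f hf
  rw [Subgroup.map_bot] at h2
  exact h2

theorem qc_formation {F H : GroupClass} (hF : IsFormation F) (hH : IsFormation H)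
    (hH' : NormallyHereditary H) (hna : NonAbs H) (hHF : Sub H F)
    (hu : ∀ (P : Type) [Group P] [Finite P] (P₁ P₂ : Subgroup P), Fam F H P₁ → Fam F H P₂ →
      P₁ = P₂) : IsFormation (QC F H) := by
  constructor
  · exact ⟨Unit, inferInstance, inferInstance, qc_formation_unit F H⟩
  · intro G _ h
    exact h.1
  · rintro G K _ _ ⟨e⟩ h
    exact qc_formation_map h e.toMonoidHom e.surjective
  · intro G _ N _ h
    exact qc_formation_map h (QuotientGroup.mk' N) (QuotientGroup.mk'_surjective N)
  · intro G _ _ M N _ _ hM hN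
    let α : G ⧸ (M ⊓ N) →* G ⧸ M :=
      QuotientGroup.map (M ⊓ N) M (MonoidHom.id G) (fun x hx => hx.1)
    let β : G ⧸ (M ⊓ N) →* G ⧸ N :=
      QuotientGroup.map (M ⊓ N) N (MonoidHom.id G) (fun x hx => hx.2)
    have hα : Function.Surjective α := by
      intro y
      obtain ⟨x, rfl⟩ := QuotientGroup.mk'_surjective M y
      exact ⟨QuotientGroup.mk' (M ⊓ N) x, rfl⟩
    have hβ : Function.Surjective β := by
      intro y
      obtain ⟨x, rfl⟩ := QuotientGroup.mk'_surjective N y
      exact ⟨QuotientGroup.mk' (M ⊓ N) x, rfl⟩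
    obtain ⟨P₁, hP₁, _⟩ := fam_lift hF hH hH' hna hHF (qc_formation_unit F H)
      (1 : (G ⧸ (M ⊓ N)) →* Unit) (fun x => ⟨1, Subsingleton.elim _ _⟩)
    have e1 : P₁.map α = ⊥ := hu _ _ _ (fam_map hP₁ α hα) hM.2
    have e2 : P₁.map β = ⊥ := hu _ _ _ (fam_map hP₁ β hβ) hN.2
    have e3 : P₁ = ⊥ := by
      rw [eq_bot_iff]
      intro x hx
      have h3 : α x ∈ P₁.map α := ⟨x, hx, rfl⟩
      have h4 : β x ∈ P₁.map β := ⟨x, hx, rfl⟩
      rw [e1, Subgroup.mem_bot] at h3
      rw [e2, Subgroup.mem_bot] at h4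
      rw [Subgroup.mem_bot]
      obtain ⟨y, rfl⟩ := QuotientGroup.mk'_surjective (M ⊓ N) x
      have h5 : y ∈ M := (QuotientGroup.eq_one_iff y).1 h3
      have h6 : y ∈ N := (QuotientGroup.eq_one_iff y).1 h4
      exact (QuotientGroup.eq_one_iff y).2 ⟨h5, h6⟩
    rw [e3] at hP₁
    exact ⟨inferInstance, hP₁⟩

end Pool.Agent.Helper75.UF
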