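import Pool.Agent.Helper75.UF.Defs
import Pool.Agent.Helper75.UF.P_quot_residual
import Pool.Agent.Helper75.UF.P_residual_eq_bot
import Pool.Agent.Helper75.UF.P_fam_self

set_option autoImplicit false
set_option linter.style.haveILetI false

/-! Definitions for the unique factorisation of products of normally hereditary formations. -/

namespace Pool.Agent.Helper75.UF



theorem qc_prod {F H : GroupClass} (hF : IsFormation F) (hH : IsFormation H) (hHF : Sub H F)
    (hu : ∀ (P : Type) [Group P] [Finite P] (P₁ P₂ : Subgroup P), Fam F H P₁ → Fam F H P₂ →
      P₁ = P₂) : F = Product (QC F H) H := by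
  apply class_ext
  intro G inst
  constructor
  · intro hG
    have hfin : Finite G := hF.finite G hG
    refine ⟨hfin, inferInstance, ?_⟩
    have h1 := fam_self F H G
    rw [(residual_eq_bot hF).mpr hG, Subgroup.bot_subgroupOf] at h1
    exact h1
  · rintro ⟨hfin, hfin2, hfam⟩
    have h1 := hu _ _ _ (fam_self F H G) hfam
    have h2 : residual F G ≤ residual H G := residual_le _ (hHF _ (quot_residual hH G))
    rw [Subgroup.subgroupOf_eq_bot] at h1
    have h3 : residual F G = ⊥ := by
      have := h1 le_rfl h2
      exact le_bot_iff.mp this
    exact (residual_eq_bot hF).mp h3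

end Pool.Agent.Helper75.UF
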