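import Pool.Agent.Helper75.UF.Defs
import Pool.Agent.Helper75.UF.P_residual_eq_bot

set_option autoImplicit false
set_option linter.style.haveILetI false

/-! Definitions for the unique factorisation of products of normally hereditary formations. -/

namespace Pool.Agent.Helper75.UF



theorem triv_prod {F : GroupClass} (hF : IsFormation F) : Product Triv F = F := by
  refine class_ext fun G _ => ?_
  constructor
  · rintro ⟨hfin, hsub⟩
    have hsub' : Subsingleton (residual F G) := hsub
    rw [← residual_eq_bot hF, Subgroup.eq_bot_iff_forall]
    intro x hx
    exact congrArg Subtype.val (Subsingleton.elim (⟨x, hx⟩ : residual F G) 1)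
  · intro h
    haveI : Finite G := hF.finite G h
    refine ⟨this, ?_⟩
    have hb : residual F G = ⊥ := (residual_eq_bot hF).mpr h
    show Subsingleton (residual F G)
    rw [hb]
    infer_instance

end Pool.Agent.Helper75.UF
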