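import Pool.Agent.Helper75.UF.Defs
import Pool.Agent.Helper75.UF.P_triv_prod
import Pool.Agent.Helper75.UF.P_nonabs_of_indecomposable
import Pool.Agent.Helper75.UF.P_fam_unique
import Pool.Agent.Helper75.UF.P_qc_formation
import Pool.Agent.Helper75.UF.P_qc_prod

set_option autoImplicit false
set_option linter.style.haveILetI false

/-! Definitions for the unique factorisation of products of normally hereditary formations. -/

namespace Pool.Agent.Helper75.UF



theorem comparable {A B F H : GroupClass} (hA : IsFormation A) (hA' : NormallyHereditary A)
    (hnA : NoAbs A) (hB : IsFormation B) (hF : Indecomposable F) (hF' : NormallyHereditary F)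
    (hH : Indecomposable H) (hH' : NormallyHereditary H) (hHF : Sub H F)
    (h : Product A F = Product B H) : F = H := by
  have hna := nonabs_of_indecomposable hH
  have hu : ∀ (P : Type) [Group P] [Finite P] (P₁ P₂ : Subgroup P), Fam F H P₁ → Fam F H P₂ →
      P₁ = P₂ := by
    intro P _ _ P₁ P₂ h1 h2
    exact fam_unique hA hA' hnA hB hF.formation hF' hH.formation hH' hna hHF h h1 h2
  have hQ := qc_formation hF.formation hH.formation hH' hna hHF hu
  have hP := qc_prod hF.formation hH.formation hHF hu
  rcases hF.not_prod (QC F H) H hQ hH.formation hP with h1 | h1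
  · rw [h1, triv_prod hH.formation] at hP
    exact hP
  · exact absurd h1 hH.ne_one

end Pool.Agent.Helper75.UF
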