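import Pool.Agent.Helper75.UF.Defs
import Pool.Agent.Helper75.UF.P_lift_res

set_option autoImplicit false
set_option linter.style.haveILetI false

/-! Definitions for the unique factorisation of products of normally hereditary formations. -/

namespace Pool.Agent.Helper75.UF



theorem exists_res {H : GroupClass} (hH : IsFormation H) (hS : NormallyHereditary H)
    (hna : NonAbs H) (P : Type) [Group P] [Finite P] :
    ∃ (G : Type) (_ : Group G) (_ : Finite G) (χ : residual H G →* P),
      Function.Surjective χ := by
  obtain ⟨G', i1, i2, g, hg, χ', hχ', -⟩ := lift_res (P := PUnit) (G := PUnit) (P' := P) hH hS hna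
    (1 : residual H PUnit →* PUnit) (fun x => ⟨1, Subsingleton.elim _ _⟩) (1 : P →* PUnit)
    (fun x => ⟨1, Subsingleton.elim _ _⟩)
  exact ⟨G', i1, i2, χ', hχ'⟩

end Pool.Agent.Helper75.UF
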