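import Pool.Agent.Helper75.UF.Defs

set_option autoImplicit false
set_option linter.style.haveILetI false

/-! Definitions for the unique factorisation of products of normally hereditary formations. -/

namespace Pool.Agent.Helper75.UF



theorem times_mem {F : GroupClass} (hF : IsFormation F) {X Y : Type} [Group X] [Group Y]
    (hX : F X) (hY : F Y) : F (X × Y) := by
  have h1 : Finite X := hF.finite X hX
  have h2 : Finite Y := hF.finite Y hY
  exact hF.subdirect_hom (MonoidHom.fst X Y) (MonoidHom.snd X Y) Prod.fst_surjective
    Prod.snd_surjective hX hY (fun x h3 h4 => Prod.ext h3 h4)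

end Pool.Agent.Helper75.UF
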