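import Pool.Agent.Helper75.UF.Defs
import Pool.Agent.Helper75.UF.P_residual_le_ker
import Pool.Agent.Helper75.UF.P_residual_eq_bot
import Pool.Agent.Helper75.UF.P_map_residual
import Pool.Agent.Helper75.UF.P_sub_mem
import Pool.Agent.Helper75.UF.P_residual_times
import Pool.Agent.Helper75.UF.P_times_mem
import Pool.Agent.Helper75.UF.P_coind_abs

set_option autoImplicit false
set_option linter.style.haveILetI false

/-! Definitions for the unique factorisation of products of normally hereditary formations. -/

namespace Pool.Agent.Helper75.UF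



theorem transfer {A B F H : GroupClass} (hA : IsFormation A) (hA' : NormallyHereditary A)
    (hB : IsFormation B) (hB' : NormallyHereditary B) (hF : IsFormation F) (hH : IsFormation H)
    (hH' : NormallyHereditary H) (h : Product A F = Product B H) {T : Type} [Group T] (hT : F T)
    (hT' : ¬ H T) : Abs A (residual H T) B := by
  intro E _ _ π hπ hAk
  haveI : Finite T := hF.finite T hT
  let U : Subgroup (T × T) := (residual H T).prod ⊥
  haveI hU : U.Normal := Subgroup.prod_normal _ _
  let φ : U →* residual H T :=
    { toFun := fun u => ⟨u.1.1, (Subgroup.mem_prod.1 u.2).1⟩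
      map_one' := rfl
      map_mul' := fun _ _ => rfl }
  have hφ : Function.Surjective φ := fun x =>
    ⟨⟨(x.1, 1), Subgroup.mem_prod.2 ⟨x.2, Subgroup.mem_bot.2 rfl⟩⟩, rfl⟩
  obtain ⟨P', i1, i2, f, hf, h1, -, h3⟩ := coind_abs U φ hφ π hπ
  have hle : residual F P' ≤ f.ker := (residual_le_ker hF f hf).2 (times_mem hF hT hT)
  have hAF : Product A F P' := ⟨i2, sub_mem hA hA' f.ker (residual F P') hle (h1 A hA hAk)⟩
  rw [h] at hAF
  have hmap : (residual H P').map f = (residual H T).prod (residual H T) := by
    rw [map_residual hH f hf, residual_times hH hH']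
  refine h3 B hB hB' (residual H P') inferInstance ?_ ?_ hAF.2
  · rw [hmap]
    exact Subgroup.prod_mono le_rfl bot_le
  · rw [hmap]
    intro hcon
    apply hT'
    rw [← residual_eq_bot hH, eq_bot_iff]
    intro x hx
    have := hcon (Subgroup.mem_prod.2 ⟨(residual H T).one_mem, hx⟩ :
      ((1 : T), x) ∈ (residual H T).prod (residual H T))
    exact (Subgroup.mem_prod.1 this).2

end Pool.Agent.Helper75.UF
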