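import Pool.Agent.Helper75.UF.Defs
import Pool.Agent.Helper75.UF.P_residual_eq_bot
import Pool.Agent.Helper75.UF.P_transfer

set_option autoImplicit false
set_option linter.style.haveILetI false

/-! Definitions for the unique factorisation of products of normally hereditary formations. -/

namespace Pool.Agent.Helper75.UF



theorem incomparable {A B F H : GroupClass} (hA : IsFormation A) (hA' : NormallyHereditary A)
    (hB : IsFormation B) (hB' : NormallyHereditary B) (hF : IsFormation F)
    (hF' : NormallyHereditary F) (hH : IsFormation H) (hH' : NormallyHereditary H)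
    (h : Product A F = Product B H) (hna : NoAbs A) : Sub F H ∨ Sub H F := by
  by_contra hcon
  rw [not_or] at hcon
  obtain ⟨h1, h2⟩ := hcon
  have h1' : ∃ (T : Type) (_ : Group T), F T ∧ ¬ H T := by
    by_contra hc
    apply h1
    intro G _ hG
    by_contra hG'
    exact hc ⟨G, inferInstance, hG, hG'⟩
  have h2' : ∃ (T : Type) (_ : Group T), H T ∧ ¬ F T := by
    by_contra hc
    apply h2
    intro G _ hG
    by_contra hG'
    exact hc ⟨G, inferInstance, hG, hG'⟩
  obtain ⟨T, iT, hT, hT'⟩ := h1'
  obtain ⟨U, iU, hU, hU'⟩ := h2'
  haveI : Finite T := hF.finite T hT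
  haveI : Finite U := hH.finite U hU
  have a1 : Abs A (residual H T) B := transfer hA hA' hB hB' hF hH hH' h hT hT'
  have a2 : Abs B (residual F U) A := transfer hB hB' hA hA' hH hF hF' h.symm hU hU'
  have a3 : Abs A (residual F U) A := by
    intro E _ _ π hπ hk
    let q : E × (residual H T) →* (residual F U) := π.comp (MonoidHom.fst E (residual H T))
    have hq : Function.Surjective q := by
      intro d
      obtain ⟨e, he⟩ := hπ d
      exact ⟨(e, 1), he⟩
    let r : q.ker →* (residual H T) := (MonoidHom.snd E (residual H T)).comp q.ker.subtype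
    have hr : Function.Surjective r := by
      intro d
      refine ⟨⟨(1, d), ?_⟩, rfl⟩
      rw [MonoidHom.mem_ker]
      exact map_one π
    have e1 : π.ker ≃* r.ker :=
      { toFun := fun x => ⟨⟨((x : E), 1), by
            rw [MonoidHom.mem_ker]
            exact MonoidHom.mem_ker.1 x.2⟩, by
            rw [MonoidHom.mem_ker]
            rfl⟩
        invFun := fun y => ⟨((y : q.ker) : E × (residual H T)).1, by
            have := (y : q.ker).2
            rw [MonoidHom.mem_ker] at this
            exact MonoidHom.mem_ker.2 this⟩
        left_inv := fun x => rfl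
        right_inv := fun y => by
          apply Subtype.ext
          apply Subtype.ext
          have hy := y.2
          rw [MonoidHom.mem_ker] at hy
          exact Prod.ext rfl hy.symm
        map_mul' := fun x y => by
          apply Subtype.ext
          apply Subtype.ext
          exact Prod.ext rfl (one_mul 1).symm }
    have hrk : A r.ker := hA.iso _ _ ⟨e1⟩ hk
    have hB1 : B q.ker := a1 q.ker r hr hrk
    have hA1 : A (E × (residual H T)) := a2 _ q hq hB1
    exact hA.surj hA1 (MonoidHom.fst E (residual H T)) (fun e => ⟨(e, 1), rfl⟩)
  have a4 : Subsingleton (residual F U) := hna _ a3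
  apply hU'
  rw [← residual_eq_bot hF]
  exact (Subgroup.eq_bot_iff_forall _).2 (fun x hx => by
    have := a4.elim ⟨x, hx⟩ ⟨1, one_mem _⟩
    exact congrArg Subtype.val this)

end Pool.Agent.Helper75.UF
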