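import Pool.Agent.Helper75.UF.Defs
import Pool.Agent.Helper75.UF.P_quot_residual
import Pool.Agent.Helper75.UF.P_residual_le_ker
import Pool.Agent.Helper75.UF.P_map_residual
import Pool.Agent.Helper75.UF.P_residual_prod
import Pool.Agent.Helper75.UF.P_exists_res

set_option autoImplicit false
set_option linter.style.haveILetI false

/-! Definitions for the unique factorisation of products of normally hereditary formations. -/

namespace Pool.Agent.Helper75.UF



theorem right_cancel_sub {A B H : GroupClass} (hA : IsFormation A) (hB : IsFormation B)
    (hH : IsFormation H) (hS : NormallyHereditary H) (hna : NonAbs H)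
    (h : Product A H = Product B H) (R : Type) [Group R] (hR : A R) : B R := by
  haveI : Finite R := hA.finite R hR
  obtain ⟨G, _, _, χ, hχ⟩ := exists_res hH hS hna R
  have hK : residual (Product A H) G =
      (residual A (residual H G)).map (residual H G).subtype := residual_prod hA hH G
  let K : Subgroup G := residual (Product A H) G
  have hmk : Function.Surjective (QuotientGroup.mk' K) := QuotientGroup.mk'_surjective K
  have e : residual H (G ⧸ K) = (residual H G).map (QuotientGroup.mk' K) :=
    (map_residual hH (QuotientGroup.mk' K) hmk).symm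
  let φ : residual H G →* (residual H G).map (QuotientGroup.mk' K) :=
    (QuotientGroup.mk' K).subgroupMap (residual H G)
  have hφ : Function.Surjective φ := MonoidHom.subgroupMap_surjective _ _
  have hker : ∀ x : residual H G, φ x = 1 ↔ x ∈ residual A (residual H G) := by
    intro x
    have h1 : φ x = 1 ↔ (x : G) ∈ K := by
      rw [← QuotientGroup.eq_one_iff]
      constructor
      · intro hx
        exact congrArg Subtype.val hx
      · intro hx
        exact Subtype.ext hx
    rw [h1]
    show (x : G) ∈ residual (Product A H) G ↔ _
    rw [hK]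
    constructor
    · rintro ⟨y, hy, hyx⟩
      have : y = x := Subtype.ext hyx
      rwa [← this]
    · intro hx
      exact ⟨x, hx, rfl⟩
  have h1 : A ((residual H G).map (QuotientGroup.mk' K)) := by
    have h2 : A (residual H G ⧸ residual A (residual H G)) := quot_residual hA _
    refine hA.surj h2 (QuotientGroup.lift _ φ (fun x hx => (hker x).2 hx)) ?_
    intro y
    obtain ⟨x, rfl⟩ := hφ y
    exact ⟨(x : residual H G ⧸ residual A (residual H G)), rfl⟩
  have h3 : Product A H (G ⧸ K) := by
    refine ⟨inferInstance, ?_⟩
    rw [e]
    exact h1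
  have hh : ∀ (Q : Type) [Group Q], Product A H Q → Product B H Q := by
    intro Q _ hQ
    rw [← h]
    exact hQ
  have h3 := hh _ h3
  have h4 : B ((residual H G).map (QuotientGroup.mk' K)) := by
    have h5 := h3.2
    rw [e] at h5
    exact h5
  have h6 : B (residual H G ⧸ φ.ker) :=
    hB.iso _ _ ⟨(QuotientGroup.quotientKerEquivOfSurjective φ hφ).symm⟩ h4
  have h7 : residual A (residual H G) ≤ χ.ker := (residual_le_ker hA χ hχ).2 hR
  refine hB.surj h6 (QuotientGroup.lift _ χ (fun x hx => ?_)) ?_
  · exact MonoidHom.mem_ker.1 (h7 ((hker x).1 (MonoidHom.mem_ker.1 hx)))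
  · intro y
    obtain ⟨x, rfl⟩ := hχ y
    exact ⟨(x : residual H G ⧸ φ.ker), rfl⟩

theorem right_cancel {A B H : GroupClass} (hA : IsFormation A) (hB : IsFormation B)
    (hH : IsFormation H) (hS : NormallyHereditary H) (hna : NonAbs H)
    (h : Product A H = Product B H) : A = B :=
  class_ext fun G _ => ⟨right_cancel_sub hA hB hH hS hna h G,
    right_cancel_sub hB hA hH hS hna h.symm G⟩

end Pool.Agent.Helper75.UF
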