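import Pool.Agent.Helper75.UF.Defs
import Pool.Agent.Helper75.UF.P_quot_residual
import Pool.Agent.Helper75.UF.P_absclass_formation

set_option autoImplicit false
set_option linter.style.haveILetI false

/-! Definitions for the unique factorisation of products of normally hereditary formations. -/

namespace Pool.Agent.Helper75.UF



theorem prod_absclass {A : GroupClass} (hA : IsFormation A) (hA' : NormallyHereditary A) :
    Product A (AbsClass A) = A := by
  apply class_ext
  intro G _
  constructor
  · rintro ⟨hfin, hres⟩
    haveI := hfin
    have h1 : (AbsClass A) (G ⧸ residual (AbsClass A) G) :=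
      quot_residual (absclass_formation hA hA').1 G
    have h2 := h1.2 G (QuotientGroup.mk' (residual (AbsClass A) G))
      (QuotientGroup.mk'_surjective _)
    apply h2
    rw [QuotientGroup.ker_mk']
    exact hres
  · intro h
    exact ⟨hA.finite G h, hA' G (residual (AbsClass A) G) h⟩

end Pool.Agent.Helper75.UF
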