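import Pool.Agent.Helper75.UF.Defs
import Pool.Agent.Helper75.UF.P_residual_prod

set_option autoImplicit false
set_option linter.style.haveILetI false

namespace Pool.Agent.Helper75.UF

theorem prod_assoc {A E C : GroupClass} (hA : IsFormation A) (hE : IsFormation E)
    (hC : IsFormation C) : Product (Product A E) C = Product A (Product E C) := by
  apply class_ext
  intro G _
  constructor
  · rintro ⟨hG, hG', h⟩
    refine ⟨hG, ?_⟩
    rw [residual_prod hE hC G]
    exact hA.iso _ _ ⟨Subgroup.equivMapOfInjective _ _ (Subgroup.subtype_injective _)⟩ h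
  · rintro ⟨hG, h⟩
    refine ⟨hG, inferInstance, ?_⟩
    rw [residual_prod hE hC G] at h
    exact hA.iso _ _ ⟨(Subgroup.equivMapOfInjective _ _ (Subgroup.subtype_injective _)).symm⟩ h

end Pool.Agent.Helper75.UF
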