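import Pool.Agent.Helper75.UF.Defs
import Pool.Agent.Helper75.UF.P_map_residual

set_option autoImplicit false
set_option linter.style.haveILetI false

/-! Definitions for the unique factorisation of products of normally hereditary formations. -/

namespace Pool.Agent.Helper75.UF



theorem prod_formation_res {F : GroupClass} (hF : IsFormation F) {G K : Type} [Group G] [Finite G]
    [Group K] (f : G →* K) (hf : Function.Surjective f) :
    ∃ g : residual F G →* residual F K, Function.Surjective g ∧
      ∀ x, ((g x : residual F K) : K) = f (x : G) := by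
  have hm := map_residual hF f hf
  refine ⟨(f.comp (residual F G).subtype).codRestrict (residual F K) (fun x => ?_), ?_, ?_⟩
  · rw [← hm]
    exact ⟨x, x.2, rfl⟩
  · rintro ⟨y, hy⟩
    have hy' := hy
    rw [← hm] at hy'
    obtain ⟨x, hx, hxy⟩ := hy'
    exact ⟨⟨x, hx⟩, Subtype.ext hxy⟩
  · intro x
    rfl

theorem prod_formation_surj {A F : GroupClass} (hA : IsFormation A) (hF : IsFormation F)
    {G K : Type} [Group G] [Group K] (f : G →* K) (hf : Function.Surjective f)
    (h : Product A F G) : Product A F K := by
  have hfin : Finite G := h.1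
  obtain ⟨g, hg, _⟩ := prod_formation_res hF f hf
  exact ⟨Finite.of_surjective f hf, hA.surj h.2 g hg⟩

theorem prod_formation {A F : GroupClass} (hA : IsFormation A) (hF : IsFormation F) :
    IsFormation (Product A F) := by
  constructor
  · refine ⟨Unit, inferInstance, inferInstance, ?_⟩
    exact hA.trivial_mem (inferInstance : Subsingleton (residual F Unit))
  · intro G _ h
    exact h.1
  · rintro G H _ _ ⟨e⟩ h
    exact prod_formation_surj hA hF e.toMonoidHom e.surjective h
  · intro G _ N _ h
    exact prod_formation_surj hA hF (QuotientGroup.mk' N) (QuotientGroup.mk'_surjective N) h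
  · intro G _ _ M N _ _ hM hN
    let α : G ⧸ (M ⊓ N) →* G ⧸ M :=
      QuotientGroup.map (M ⊓ N) M (MonoidHom.id G) (fun x hx => hx.1)
    let β : G ⧸ (M ⊓ N) →* G ⧸ N :=
      QuotientGroup.map (M ⊓ N) N (MonoidHom.id G) (fun x hx => hx.2)
    have hα : Function.Surjective α := by
      intro y
      obtain ⟨x, rfl⟩ := QuotientGroup.mk'_surjective M y
      exact ⟨QuotientGroup.mk' (M ⊓ N) x, rfl⟩
    have hβ : Function.Surjective β := by
      intro y
      obtain ⟨x, rfl⟩ := QuotientGroup.mk'_surjective N y
      exact ⟨QuotientGroup.mk' (M ⊓ N) x, rfl⟩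
    obtain ⟨f, hf, hf2⟩ := prod_formation_res hF α hα
    obtain ⟨g, hg, hg2⟩ := prod_formation_res hF β hβ
    refine ⟨inferInstance, hA.subdirect_hom f g hf hg hM.2 hN.2 ?_⟩
    rintro ⟨x, hx⟩ h1 h2
    have h3 : α x = 1 := by
      have := hf2 ⟨x, hx⟩
      rw [h1] at this
      exact this.symm
    have h4 : β x = 1 := by
      have := hg2 ⟨x, hx⟩
      rw [h2] at this
      exact this.symm
    apply Subtype.ext
    change x = 1
    obtain ⟨y, rfl⟩ := QuotientGroup.mk'_surjective (M ⊓ N) x
    have h5 : y ∈ M := (QuotientGroup.eq_one_iff y).1 h3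
    have h6 : y ∈ N := (QuotientGroup.eq_one_iff y).1 h4
    exact (QuotientGroup.eq_one_iff y).2 ⟨h5, h6⟩

end Pool.Agent.Helper75.UF
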