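import Pool.Agent.Helper75.UF.Defs
import Pool.Agent.Helper75.UF.P_map_residual
import Pool.Agent.Helper75.UF.P_sub_mem
import Pool.Agent.Helper75.UF.P_sn_mono

set_option autoImplicit false
set_option linter.style.haveILetI false

/-! Definitions for the unique factorisation of products of normally hereditary formations. -/

namespace Pool.Agent.Helper75.UF



theorem prod_sn {A F : GroupClass} (hA : IsFormation A) (hF : IsFormation F)
    (hA' : NormallyHereditary A) (hF' : NormallyHereditary F) : NormallyHereditary (Product A F) := by
  intro G _ N hN hG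
  obtain ⟨hfin, hAG⟩ := hG
  have hfinN : Finite N := inferInstance
  refine ⟨hfinN, ?_⟩
  have hle := sn_mono hF hF' N
  have hK : ((residual F N).map N.subtype).Normal := by
    refine ⟨fun x hx g => ?_⟩
    obtain ⟨n, hn, rfl⟩ := Subgroup.mem_map.1 hx
    have h1 := map_residual hF (MulAut.conjNormal (H := N) g).toMonoidHom
      (MulAut.conjNormal (H := N) g).surjective
    refine Subgroup.mem_map.2 ⟨MulAut.conjNormal g n, ?_, ?_⟩
    · rw [← h1]
      exact Subgroup.mem_map.2 ⟨n, hn, rfl⟩
    · simp
  have h2 : A ((residual F N).map N.subtype) := sub_mem hA hA' (residual F G) _ hle hAG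
  exact hA.iso _ _ ⟨((residual F N).equivMapOfInjective N.subtype N.subtype_injective).symm⟩ h2

end Pool.Agent.Helper75.UF
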