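import Pool.Agent.Helper75.UF.Defs
import Pool.Agent.Helper75.UF.P_residual_eq_bot
import Pool.Agent.Helper75.UF.P_prod_formation
import Pool.Agent.Helper75.UF.P_prod_sn
import Pool.Agent.Helper75.UF.P_prod_assoc
import Pool.Agent.Helper75.UF.P_transfer
import Pool.Agent.Helper75.UF.P_absclass_formation
import Pool.Agent.Helper75.UF.P_prod_absclass

set_option autoImplicit false
set_option linter.style.haveILetI false

/-! Definitions for the unique factorisation of products of normally hereditary formations. -/

namespace Pool.Agent.Helper75.UF



theorem noabs_prod {A E : GroupClass} (hA : IsFormation A) (hA' : NormallyHereditary A)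
    (hna : NoAbs A) (hE : Indecomposable E) (hE' : NormallyHereditary E) : NoAbs (Product A E) := by
  intro D _ _ habs
  have hAE : IsFormation (Product A E) := prod_formation hA hE.formation
  have hAE' : NormallyHereditary (Product A E) := prod_sn hA hE.formation hA' hE'
  obtain ⟨hC, hC'⟩ := absclass_formation hAE hAE'
  have hCD : AbsClass (Product A E) D := ⟨inferInstance, habs⟩
  by_contra hD
  have hCne : AbsClass (Product A E) ≠ Triv := by
    intro h
    rw [h] at hCD
    exact hD hCD
  have hEC : IsFormation (Product E (AbsClass (Product A E))) := prod_formation hE.formation hC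
  have heq : Product A (Product E (AbsClass (Product A E))) = Product A E := by
    rw [← prod_assoc hA hE.formation hC]
    exact prod_absclass hAE hAE'
  have hsub : Sub E (Product E (AbsClass (Product A E))) := by
    intro G _ hG
    exact ⟨hE.formation.finite G hG, hE' G (residual (AbsClass (Product A E)) G) hG⟩
  have hne : E ≠ Product E (AbsClass (Product A E)) := by
    intro h
    rcases hE.not_prod E (AbsClass (Product A E)) hE.formation hC h with h1 | h1
    · exact hE.ne_one h1
    · exact hCne h1
  obtain ⟨T, instT, hT, hT'⟩ : ∃ (T : Type) (_ : Group T),
      Product E (AbsClass (Product A E)) T ∧ ¬ E T := by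
    by_contra hcon
    apply hne
    apply class_ext
    intro G _
    constructor
    · intro hG
      exact hsub G hG
    · intro hG
      by_contra hn
      exact hcon ⟨G, _, hG, hn⟩
  have habs2 : Abs A (residual E T) A :=
    transfer hA hA' hA hA' hEC hE.formation hE' heq hT hT'
  haveI : Finite T := hT.1
  have hss : Subsingleton (residual E T) := hna (residual E T) habs2
  apply hT'
  rw [← residual_eq_bot hE.formation]
  rw [eq_bot_iff]
  intro x hx
  rw [Subgroup.mem_bot]
  have h2 : (⟨x, hx⟩ : residual E T) = 1 := Subsingleton.elim _ _
  exact congrArg Subtype.val h2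

end Pool.Agent.Helper75.UF

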