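import Pool.Agent.Helper75.UF.Defs

set_option autoImplicit false
set_option linter.style.haveILetI false

/-! Definitions for the unique factorisation of products of normally hereditary formations. -/

namespace Pool.Agent.Helper75.UF



theorem noabs_triv : NoAbs Triv := by
  intro D _ _ h
  refine h D (MonoidHom.id D) Function.surjective_id ?_
  refine ⟨fun a b => Subtype.ext ?_⟩
  have ha : (a : D) = 1 := a.2
  have hb : (b : D) = 1 := b.2
  rw [ha, hb]

end Pool.Agent.Helper75.UF
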