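import Pool.Agent.Helper75.UF.Defs

set_option autoImplicit false
set_option linter.style.haveILetI false

/-! Definitions for the unique factorisation of products of normally hereditary formations. -/

namespace Pool.Agent.Helper75.UF



theorem triv_formation : IsFormation Triv ∧ NormallyHereditary Triv := by
  refine ⟨⟨⟨Unit, inferInstance, (inferInstance : Subsingleton Unit)⟩, ?_, ?_, ?_, ?_⟩, ?_⟩
  · intro G _ h
    have : Subsingleton G := h
    infer_instance
  · rintro G H _ _ ⟨e⟩ h
    have : Subsingleton G := h
    exact e.symm.toEquiv.subsingleton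
  · intro G _ N _ h
    have : Subsingleton G := h
    refine ⟨fun a b => ?_⟩
    obtain ⟨x, rfl⟩ := QuotientGroup.mk_surjective a
    obtain ⟨y, rfl⟩ := QuotientGroup.mk_surjective b
    rw [Subsingleton.elim x y]
  · intro G _ _ M N _ _ hM hN
    have hM' : Subsingleton (G ⧸ M) := hM
    have hN' : Subsingleton (G ⧸ N) := hN
    have h1 : M = ⊤ := QuotientGroup.subgroup_eq_top_of_subsingleton M hM'
    have h2 : N = ⊤ := QuotientGroup.subgroup_eq_top_of_subsingleton N hN'
    subst h1 h2
    refine ⟨fun a b => ?_⟩
    obtain ⟨x, rfl⟩ := QuotientGroup.mk_surjective a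
    obtain ⟨y, rfl⟩ := QuotientGroup.mk_surjective b
    exact QuotientGroup.eq.2 ⟨trivial, trivial⟩
  · intro G _ N _ h
    have : Subsingleton G := h
    exact (inferInstance : Subsingleton N)

end Pool.Agent.Helper75.UF
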