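import Pool.Agent.Helper75.UF.Defs
import Pool.Agent.Helper75.UF.P_triv_formation
import Pool.Agent.Helper75.UF.P_prod_formation
import Pool.Agent.Helper75.UF.P_prod_sn
import Pool.Agent.Helper75.UF.P_noabs_triv
import Pool.Agent.Helper75.UF.P_noabs_prod

set_option autoImplicit false
set_option linter.style.haveILetI false

/-! Definitions for the unique factorisation of products of normally hereditary formations. -/

namespace Pool.Agent.Helper75.UF



theorem rprod_good (l : List GroupClass)
    (hl : ∀ F ∈ l, Indecomposable F ∧ NormallyHereditary F) :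
    IsFormation (rprod l) ∧ NormallyHereditary (rprod l) ∧ NoAbs (rprod l) := by
  induction l with
  | nil => exact ⟨triv_formation.1, triv_formation.2, noabs_triv⟩
  | cons F l ih =>
    obtain ⟨h1, h2, h3⟩ := ih (fun E hE => hl E (List.mem_cons_of_mem _ hE))
    obtain ⟨h4, h5⟩ := hl F List.mem_cons_self
    exact ⟨prod_formation h1 h4.formation, prod_sn h1 h4.formation h2 h5, noabs_prod h1 h2 h3 h4 h5⟩

end Pool.Agent.Helper75.UF
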