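import Pool.Agent.Helper75.UF.Defs
import Pool.Agent.Helper75.UF.P_residual_eq_bot
import Pool.Agent.Helper75.UF.P_nonabs_of_indecomposable
import Pool.Agent.Helper75.UF.P_right_cancel
import Pool.Agent.Helper75.UF.P_incomparable
import Pool.Agent.Helper75.UF.P_comparable
import Pool.Agent.Helper75.UF.P_rprod_good

set_option autoImplicit false
set_option linter.style.haveILetI false

/-! Definitions for the unique factorisation of products of normally hereditary formations. -/

namespace Pool.Agent.Helper75.UF



theorem main_rev_nil (H : GroupClass) (m : List GroupClass)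
    (hl : ∀ F ∈ H :: m, Indecomposable F ∧ NormallyHereditary F)
    (h : rprod (H :: m) = Triv) : False := by
  have hH := (hl H List.mem_cons_self).1
  obtain ⟨fB, -, -⟩ := rprod_good m (fun F hF => hl F (List.mem_cons_of_mem _ hF))
  apply hH.ne_one
  apply class_ext
  intro G _
  constructor
  · intro hG
    have hfin : Finite G := hH.formation.finite G hG
    have h1 : residual H G = ⊥ := (residual_eq_bot hH.formation).2 hG
    have h2 : Product (rprod m) H G := by
      refine ⟨hfin, ?_⟩
      rw [h1]
      exact fB.trivial_mem inferInstance
    have h3 : rprod (H :: m) G := h2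
    rw [h] at h3
    exact h3
  · intro hG
    exact hH.formation.trivial_mem hG

theorem main_rev (l l' : List GroupClass)
    (hl : ∀ F ∈ l, Indecomposable F ∧ NormallyHereditary F)
    (hl' : ∀ F ∈ l', Indecomposable F ∧ NormallyHereditary F) (h : rprod l = rprod l') :
    l = l' := by
  induction l generalizing l' with
  | nil =>
    cases l' with
    | nil => rfl
    | cons H m => exact (main_rev_nil H m hl' h.symm).elim
  | cons F l0 ih =>
    cases l' with
    | nil => exact (main_rev_nil F l0 hl h).elim
    | cons H m =>
      have hl0 : ∀ F ∈ l0, Indecomposable F ∧ NormallyHereditary F :=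
        fun K hK => hl K (List.mem_cons_of_mem _ hK)
      have hm0 : ∀ F ∈ m, Indecomposable F ∧ NormallyHereditary F :=
        fun K hK => hl' K (List.mem_cons_of_mem _ hK)
      obtain ⟨fA, nA, naA⟩ := rprod_good l0 hl0
      obtain ⟨fB, nB, naB⟩ := rprod_good m hm0
      obtain ⟨hF, hF'⟩ := hl F List.mem_cons_self
      obtain ⟨hH, hH'⟩ := hl' H List.mem_cons_self
      have h' : Product (rprod l0) F = Product (rprod m) H := h
      have hFH : F = H := by
        rcases incomparable fA nA fB nB hF.formation hF' hH.formation hH' h' naA with h1 | h1
        · exact (comparable fB nB naB fA hH hH' hF hF' h1 h'.symm).symm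
        · exact comparable fA nA naA fB hF hF' hH hH' h1 h'
      subst hFH
      have h2 := right_cancel fA fB hF.formation hF' (nonabs_of_indecomposable hF) h'
      rw [ih m hl0 hm0 h2]

end Pool.Agent.Helper75.UF
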