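import Pool.Agent.Helper75.UF.Defs
import Pool.Agent.Helper75.UF.P_main_rev

set_option autoImplicit false
set_option linter.style.haveILetI false

/-! Definitions for the unique factorisation of products of normally hereditary formations. -/

namespace Pool.Agent.Helper75.UF



theorem main_aux (m : List GroupClass) :
    rprod m = m.foldr (fun F A => Product A F) Triv := by
  induction m with
  | nil => rfl
  | cons F l ih =>
    show Product (rprod l) F = _
    rw [ih]
    rfl

theorem main_aux2 (l : List GroupClass) : listProd l = rprod l.reverse := by
  rw [main_aux, List.foldr_reverse]
  rfl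

theorem main (l l' : List GroupClass)
    (hl : ∀ F ∈ l, Indecomposable F ∧ NormallyHereditary F)
    (hl' : ∀ F ∈ l', Indecomposable F ∧ NormallyHereditary F) (h : listProd l = listProd l') :
    l = l' := by
  rw [main_aux2, main_aux2] at h
  have h1 := main_rev l.reverse l'.reverse (fun F hF => hl F (List.mem_reverse.1 hF))
    (fun F hF => hl' F (List.mem_reverse.1 hF)) h
  exact List.reverse_injective h1

end Pool.Agent.Helper75.UF
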